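import Mathlib

set_option autoImplicit false

namespace Pool.Agent.Results.MP_c0ff68_co.BoardSize

/-- Two players, X and Y, alternately claim one unclaimed element of the finite board `V` until
the whole board is claimed.  `Forces P b X Y` says: from the position in which player X has
claimed the set `X`, player Y has claimed the set `Y`, and player X is to move if `b = true`
(player Y if `b = false`), player Y has a strategy which guarantees that the set claimed by
player X at the end of the game satisfies `P`. -/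
inductive Forces {V : Type} [Fintype V] [DecidableEq V] (P : Finset V → Prop) :
    Bool → Finset V → Finset V → Prop
  | finished (b : Bool) (X Y : Finset V) (hfull : X ∪ Y = Finset.univ) (hP : P X) : Forces P b X Y
  | xmove (X Y : Finset V) (hne : X ∪ Y ≠ Finset.univ)
      (h : ∀ v : V, v ∉ X ∪ Y → Forces P false (insert v X) Y) : Forces P true X Y
  | ymove (X Y : Finset V) (v : V) (hv : v ∉ X ∪ Y)
      (h : Forces P true X (insert v Y)) : Forces P false X Y

/-- The hypergraph `F` has gap factor at least `c`: whoever moves first (`b` ranges over both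
possibilities), Forcer (player Y) can force Avoider (player X) to claim all of some `A ∈ F`, and
Breaker (player Y) can guarantee that Maker (player X) ends up with at most `|A| / c` elements of
every `A ∈ F`. -/
def GapFactorAtLeast {V : Type} [Fintype V] [DecidableEq V] (F : Finset (Finset V)) (c : ℝ) :
    Prop :=
  1 ≤ c ∧ ∀ b : Bool,
    Forces (fun S => ∃ A ∈ F, A ⊆ S) b ∅ ∅ ∧
    Forces (fun M => ∀ A ∈ F, ((M ∩ A).card : ℝ) ≤ (A.card : ℝ) / c) b ∅ ∅

section
variable {V : Type} [Fintype V] [DecidableEq V]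

/-- Some final position is reached, and player X has at most the expected number of elements. -/
lemma finish (P : Finset V → Prop) (b : Bool) (X Y : Finset V) (h : Forces P b X Y)
    (hd : Disjoint X Y) :
    ∃ S : Finset V, X ⊆ S ∧ P S ∧
      2 * S.card + Y.card ≤ Fintype.card V + X.card + (if b then 1 else 0) := by
  induction h with
  | finished b X Y hfull hP =>
    refine ⟨X, subset_rfl, hP, ?_⟩
    have h1 : X.card + Y.card = Fintype.card V := by
      rw [← Finset.card_union_of_disjoint hd, hfull, Finset.card_univ]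
    omega
  | xmove X Y hne h ih =>
    obtain ⟨v, hv⟩ : ∃ v, v ∉ X ∪ Y := by
      by_contra hcon
      push Not at hcon
      exact hne (Finset.eq_univ_iff_forall.mpr hcon)
    have hv' := hv
    rw [Finset.mem_union, not_or] at hv'
    obtain ⟨S, h1, h2, h3⟩ := ih v hv (Finset.disjoint_insert_left.mpr ⟨hv'.2, hd⟩)
    refine ⟨S, (Finset.subset_insert v X).trans h1, h2, ?_⟩
    rw [Finset.card_insert_of_notMem hv'.1] at h3
    simp only [Bool.false_eq_true, if_false, if_true] at h3 ⊢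
    omega
  | ymove X Y v hv h ih =>
    have hv' := hv
    rw [Finset.mem_union, not_or] at hv'
    obtain ⟨S, h1, h2, h3⟩ := ih (Finset.disjoint_insert_right.mpr ⟨hv'.1, hd⟩)
    refine ⟨S, h1, h2, ?_⟩
    rw [Finset.card_insert_of_notMem hv'.2] at h3
    simp only [Bool.false_eq_true, if_false, if_true] at h3 ⊢
    omega

/-- One move of player X. -/
lemma xstep (P : Finset V → Prop) (X Y : Finset V) (h : Forces P true X Y) (v : V)
    (hv : v ∉ X ∪ Y) : Forces P false (insert v X) Y := by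
  cases h with
  | finished b X Y hfull hP => exact absurd (Finset.mem_univ v) (hfull ▸ hv)
  | xmove X Y hne h => exact h v hv

/-- The reply of player Y, if the board is not yet full. -/
lemma ystep (P : Finset V → Prop) (X Y : Finset V) (h : Forces P false X Y) (w : V)
    (hw : w ∉ X ∪ Y) : ∃ u, u ∉ X ∪ Y ∧ Forces P true X (insert u Y) := by
  cases h with
  | finished b X Y hfull hP => exact absurd (Finset.mem_univ w) (hfull ▸ hw)
  | ymove X Y u hu h => exact ⟨u, hu, h⟩

/-- `Rep P X Y p q`: after player X claims `p`, player Y has a good reply other than `q`. -/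
def Rep (P : Finset V → Prop) (X Y : Finset V) (p q : V) : Prop :=
  ∃ y, y ≠ q ∧ y ∉ insert p X ∪ Y ∧ Forces P true (insert p X) (insert y Y)

lemma rep_or (P : Finset V → Prop) (X Y : Finset V) (h : Forces P true X Y) (a b c : V)
    (ha : a ∉ X ∪ Y) (hb : b ∉ X ∪ Y) (hab : a ≠ b) (hac : a ≠ c) :
    (Rep P X Y a b ∨ Rep P X Y b a) ∨ (Rep P X Y b c ∨ Rep P X Y c b) := by
  have h1 := xstep P X Y h b hb
  have ha' : a ∉ insert b X ∪ Y := by
    simp only [Finset.mem_union, Finset.mem_insert, not_or] at ha ⊢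
    exact ⟨⟨hab, ha.1⟩, ha.2⟩
  obtain ⟨u, hu1, hu2⟩ := ystep P _ Y h1 a ha'
  by_cases hua : u = a
  · exact Or.inr (Or.inl ⟨u, by rw [hua]; exact hac, hu1, hu2⟩)
  · exact Or.inl (Or.inr ⟨u, hua, hu1, hu2⟩)

lemma take_two_aux (P : Finset V → Prop) (X Y : Finset V) (hd : Disjoint X Y) (p q : V)
    (hp : p ∉ X ∪ Y) (hq : q ∉ X ∪ Y) (hpq : p ≠ q) (h : Rep P X Y p q) :
    ∃ S : Finset V, insert p (insert q X) ⊆ S ∧ P S ∧
      2 * S.card + Y.card ≤ Fintype.card V + X.card + 1 := by
  obtain ⟨y, hyq, hy, hF⟩ := h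
  simp only [Finset.mem_union, Finset.mem_insert, not_or] at hp hq hy
  have hd1 : Disjoint (insert p X) (insert y Y) := by
    rw [Finset.disjoint_insert_right]
    exact ⟨by simp only [Finset.mem_insert, not_or]; exact hy.1,
      Finset.disjoint_insert_left.mpr ⟨hp.2, hd⟩⟩
  have hqq : q ∉ insert p X ∪ insert y Y := by
    simp only [Finset.mem_union, Finset.mem_insert, not_or]
    exact ⟨⟨fun e => hpq e.symm, hq.1⟩, fun e => hyq e.symm, hq.2⟩
  have h2 := xstep P _ _ hF q hqq
  simp only [Finset.mem_union, Finset.mem_insert, not_or] at hqq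
  have hd2 : Disjoint (insert q (insert p X)) (insert y Y) := by
    rw [Finset.disjoint_insert_left]
    exact ⟨by simp only [Finset.mem_insert, not_or]; exact hqq.2, hd1⟩
  obtain ⟨S, hS1, hS2, hS3⟩ := finish P false _ _ h2 hd2
  refine ⟨S, ?_, hS2, ?_⟩
  · rw [Finset.insert_comm]; exact hS1
  · have hqX : q ∉ insert p X := by simp [hqq.1.1, hqq.1.2]
    rw [Finset.card_insert_of_notMem hqX,
      Finset.card_insert_of_notMem hp.1, Finset.card_insert_of_notMem hy.2] at hS3
    simp only [Bool.false_eq_true, if_false] at hS3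
    omega

lemma take_two (P : Finset V → Prop) (X Y : Finset V) (hd : Disjoint X Y) (p q : V)
    (hp : p ∉ X ∪ Y) (hq : q ∉ X ∪ Y) (hpq : p ≠ q) (h : Rep P X Y p q ∨ Rep P X Y q p) :
    ∃ S : Finset V, insert p (insert q X) ⊆ S ∧ P S ∧
      2 * S.card + Y.card ≤ Fintype.card V + X.card + 1 := by
  rcases h with h | h
  · exact take_two_aux P X Y hd p q hp hq hpq h
  · obtain ⟨S, h1, h2⟩ := take_two_aux P X Y hd q p hq hp hpq.symm h
    exact ⟨S, by rw [Finset.insert_comm]; exact h1, h2⟩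

lemma two_of_three {a b c a' b' c' R : Prop} (r1 : a ∨ b) (r2 : b ∨ c) (r3 : c ∨ a)
    (s1 : a' ∨ b') (s2 : b' ∨ c') (s3 : c' ∨ a') (k1 : a → a' → R) (k2 : b → b' → R)
    (k3 : c → c' → R) : R := by
  by_cases ha : a
  · by_cases ha' : a'
    · exact k1 ha ha'
    · have hb' := s1.resolve_left ha'
      have hc' := s3.resolve_right ha'
      rcases r2 with hb | hc
      · exact k2 hb hb'
      · exact k3 hc hc'
  · have hb := r1.resolve_left ha
    have hc := r3.resolve_right ha
    rcases s2 with hb' | hc'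
    · exact k2 hb hb'
    · exact k3 hc hc'

/-- The number of common elements which player X gets from `w` elements free on both boards. -/
def gain (w : ℕ) : ℕ := if w = 0 then 0 else w / 3 + 1

/-- **Lockstep lemma.**  Two games on the same board, X to move in both, `W` the set of elements
that are free in both.  Whatever the strategies of Y are, player X can play such that at least
`⌊|W| / 3⌋ + 1` elements of `W` are his in both games. -/
lemma lockstep (P Q : Finset V → Prop) (w : ℕ) : ∀ (X₁ Y₁ X₂ Y₂ : Finset V),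
    Forces P true X₁ Y₁ → Forces Q true X₂ Y₂ → Disjoint X₁ Y₁ → Disjoint X₂ Y₂ →
    ((X₁ ∪ Y₁) ∪ (X₂ ∪ Y₂))ᶜ.card = w →
    ∃ S M : Finset V, P S ∧ Q M ∧ X₁ ⊆ S ∧ X₂ ⊆ M ∧
      2 * S.card + Y₁.card ≤ Fintype.card V + X₁.card + 1 ∧
      (X₁ ∩ X₂).card + gain w ≤ (S ∩ M).card := by
  induction w using Nat.strong_induction_on with
  | _ w IH =>
  intro X₁ Y₁ X₂ Y₂ h₁ h₂ hd₁ hd₂ hw
  have hmem : ∀ z, z ∈ ((X₁ ∪ Y₁) ∪ (X₂ ∪ Y₂))ᶜ ↔ z ∉ X₁ ∪ Y₁ ∧ z ∉ X₂ ∪ Y₂ := by
    intro z
    rw [Finset.mem_compl, Finset.mem_union (s := X₁ ∪ Y₁), not_or]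
  by_cases hw0 : w = 0
  · obtain ⟨S, hS1, hS2, hS3⟩ := finish P _ _ _ h₁ hd₁
    obtain ⟨M, hM1, hM2, -⟩ := finish Q _ _ _ h₂ hd₂
    refine ⟨S, M, hS2, hM2, hS1, hM1, by simpa using hS3, ?_⟩
    rw [hw0, gain]
    simp only [if_true, add_zero]
    exact Finset.card_le_card (Finset.inter_subset_inter hS1 hM1)
  by_cases hw2 : w ≤ 2
  · -- one common element
    obtain ⟨v, hv⟩ : (((X₁ ∪ Y₁) ∪ (X₂ ∪ Y₂))ᶜ).Nonempty := by
      rw [← Finset.card_pos, hw]; omega
    rw [hmem] at hv
    obtain ⟨hv1, hv2⟩ := hv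
    have g1 := xstep P _ _ h₁ v hv1
    have g2 := xstep Q _ _ h₂ v hv2
    rw [Finset.mem_union, not_or] at hv1 hv2
    obtain ⟨S, hS1, hS2, hS3⟩ := finish P _ _ _ g1 (Finset.disjoint_insert_left.mpr ⟨hv1.2, hd₁⟩)
    obtain ⟨M, hM1, hM2, -⟩ := finish Q _ _ _ g2 (Finset.disjoint_insert_left.mpr ⟨hv2.2, hd₂⟩)
    refine ⟨S, M, hS2, hM2, (Finset.subset_insert _ _).trans hS1,
      (Finset.subset_insert _ _).trans hM1, ?_, ?_⟩
    · rw [Finset.card_insert_of_notMem hv1.1] at hS3
      simp only [Bool.false_eq_true, if_false] at hS3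
      omega
    · have hg : gain w = 1 := by
        rw [gain, if_neg hw0]
        omega
      rw [hg]
      have h3 : insert v (X₁ ∩ X₂) ⊆ S ∩ M := by
        rw [Finset.insert_inter_distrib]
        exact Finset.inter_subset_inter hS1 hM1
      have h4 := Finset.card_le_card h3
      rw [Finset.card_insert_of_notMem (by simp [hv1.1])] at h4
      exact h4
  by_cases hw3 : w = 3
  · -- two common elements
    obtain ⟨a, b, c, hab, hac, hbc, habc⟩ := Finset.card_eq_three.mp (hw.trans hw3)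
    have ha := (hmem a).mp (by rw [habc]; simp)
    have hb := (hmem b).mp (by rw [habc]; simp)
    have hc := (hmem c).mp (by rw [habc]; simp)
    have key : ∀ p q : V, p ≠ q → (p ∉ X₁ ∪ Y₁ ∧ p ∉ X₂ ∪ Y₂) → (q ∉ X₁ ∪ Y₁ ∧ q ∉ X₂ ∪ Y₂) →
        (Rep P X₁ Y₁ p q ∨ Rep P X₁ Y₁ q p) → (Rep Q X₂ Y₂ p q ∨ Rep Q X₂ Y₂ q p) →
        ∃ S M : Finset V, P S ∧ Q M ∧ X₁ ⊆ S ∧ X₂ ⊆ M ∧
        2 * S.card + Y₁.card ≤ Fintype.card V + X₁.card + 1 ∧
        (X₁ ∩ X₂).card + gain w ≤ (S ∩ M).card := by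
      intro p q hpq hp hq hP hQ
      obtain ⟨S, hS1, hS2, hS3⟩ := take_two P X₁ Y₁ hd₁ p q hp.1 hq.1 hpq hP
      obtain ⟨M, hM1, hM2, -⟩ := take_two Q X₂ Y₂ hd₂ p q hp.2 hq.2 hpq hQ
      refine ⟨S, M, hS2, hM2, fun x hx => hS1 (by simp [hx]), fun x hx => hM1 (by simp [hx]),
        hS3, ?_⟩
      have hg : gain w = 2 := by rw [hw3, gain]; norm_num
      rw [hg]
      have h3 : insert p (insert q (X₁ ∩ X₂)) ⊆ S ∩ M := by
        rw [Finset.insert_inter_distrib, Finset.insert_inter_distrib]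
        exact Finset.inter_subset_inter hS1 hM1
      have h4 := Finset.card_le_card h3
      have hp1 := hp.1
      have hq1 := hq.1
      rw [Finset.mem_union, not_or] at hp1 hq1
      rw [Finset.card_insert_of_notMem (by simp [hpq, hp1.1]),
        Finset.card_insert_of_notMem (by simp [hq1.1])] at h4
      exact h4
    have r1 := rep_or P X₁ Y₁ h₁ a b c ha.1 hb.1 hab hac
    have r2 := rep_or P X₁ Y₁ h₁ b c a hb.1 hc.1 hbc hab.symm
    have r3 := rep_or P X₁ Y₁ h₁ c a b hc.1 ha.1 hac.symm hbc.symm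
    have s1 := rep_or Q X₂ Y₂ h₂ a b c ha.2 hb.2 hab hac
    have s2 := rep_or Q X₂ Y₂ h₂ b c a hb.2 hc.2 hbc hab.symm
    have s3 := rep_or Q X₂ Y₂ h₂ c a b hc.2 ha.2 hac.symm hbc.symm
    have k1 := key a b hab ha hb
    have k2 := key b c hbc hb hc
    have k3 := key c a hac.symm hc ha
    exact two_of_three r1 r2 r3 s1 s2 s3 k1 k2 k3
  · -- one round
    have hw4 : 4 ≤ w := by omega
    obtain ⟨v, hv⟩ : (((X₁ ∪ Y₁) ∪ (X₂ ∪ Y₂))ᶜ).Nonempty := by
      rw [← Finset.card_pos, hw]; omega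
    obtain ⟨v', hv', hvv'⟩ : ∃ v' ∈ (((X₁ ∪ Y₁) ∪ (X₂ ∪ Y₂))ᶜ), v' ≠ v :=
      Finset.exists_mem_ne (by rw [hw]; omega) v
    rw [hmem] at hv hv'
    have g1 := xstep P _ _ h₁ v hv.1
    have g2 := xstep Q _ _ h₂ v hv.2
    obtain ⟨y, hy1, hy2⟩ := ystep P _ _ g1 v' (by
      simp only [Finset.mem_union, Finset.mem_insert, not_or] at hv' ⊢
      exact ⟨⟨hvv', hv'.1.1⟩, hv'.1.2⟩)
    obtain ⟨u, hu1, hu2⟩ := ystep Q _ _ g2 v' (by
      simp only [Finset.mem_union, Finset.mem_insert, not_or] at hv' ⊢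
      exact ⟨⟨hvv', hv'.2.1⟩, hv'.2.2⟩)
    simp only [Finset.mem_union, Finset.mem_insert, not_or] at hv hy1 hu1
    have hd₁' : Disjoint (insert v X₁) (insert y Y₁) := by
      rw [Finset.disjoint_insert_right]
      exact ⟨by simp only [Finset.mem_insert, not_or]; exact hy1.1,
        Finset.disjoint_insert_left.mpr ⟨hv.1.2, hd₁⟩⟩
    have hd₂' : Disjoint (insert v X₂) (insert u Y₂) := by
      rw [Finset.disjoint_insert_right]
      exact ⟨by simp only [Finset.mem_insert, not_or]; exact hu1.1,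
        Finset.disjoint_insert_left.mpr ⟨hv.2.2, hd₂⟩⟩
    set W := ((X₁ ∪ Y₁) ∪ (X₂ ∪ Y₂))ᶜ with hWdef
    set W' := ((insert v X₁ ∪ insert y Y₁) ∪ (insert v X₂ ∪ insert u Y₂))ᶜ with hW'def
    have hWW' : W ⊆ insert v (insert y (insert u W')) := by
      intro z hz
      simp only [hWdef, hW'def, Finset.mem_compl, Finset.mem_union, Finset.mem_insert, not_or]
        at hz ⊢
      tauto
    have hW'W : W' ⊆ W.erase v := by
      intro z hz
      simp only [hWdef, hW'def, Finset.mem_compl, Finset.mem_union, Finset.mem_insert, not_or,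
        Finset.mem_erase] at hz ⊢
      tauto
    have hc1 : w ≤ W'.card + 3 := by
      have e1 := Finset.card_le_card hWW'
      have e2 := Finset.card_insert_le v (insert y (insert u W'))
      have e3 := Finset.card_insert_le y (insert u W')
      have e4 := Finset.card_insert_le u W'
      omega
    have hvW : v ∈ W := by
      simp only [hWdef, Finset.mem_compl, Finset.mem_union, not_or]
      exact hv
    have hc2 : W'.card < w := by
      have e1 := Finset.card_le_card hW'W
      rw [Finset.card_erase_of_mem hvW] at e1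
      omega
    obtain ⟨S, M, hS, hM, hS1, hM1, hS2, hSM⟩ := IH W'.card hc2 _ _ _ _ hy2 hu2 hd₁' hd₂' rfl
    refine ⟨S, M, hS, hM, (Finset.subset_insert _ _).trans hS1,
      (Finset.subset_insert _ _).trans hM1, ?_, ?_⟩
    · rw [Finset.card_insert_of_notMem hv.1.1, Finset.card_insert_of_notMem hy1.2] at hS2
      omega
    · rw [← Finset.insert_inter_distrib, Finset.card_insert_of_notMem (by simp [hv.1.1])] at hSM
      have hg : gain w ≤ gain W'.card + 1 := by
        have : W'.card ≠ 0 := by omega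
        rw [gain, gain, if_neg hw0, if_neg this]
        omega
      omega

/-- For any two strategies of the second player, the final sets of player X can be chosen such that
`|S \ M| ≤ ⌊(n - 2) / 6⌋`. -/
lemma full_set (P Q : Finset V → Prop) (hP : ∀ b, Forces P b ∅ ∅) (hQ : Forces Q true ∅ ∅) :
    ∃ S M : Finset V, P S ∧ Q M ∧ S.card ≤ (S ∩ M).card + (Fintype.card V - 2) / 6 := by
  by_cases hn : Fintype.card V = 0
  · obtain ⟨S, -, hS, -⟩ := finish P _ _ _ (hP true) (by simp)
    obtain ⟨M, -, hM, -⟩ := finish Q _ _ _ hQ (by simp)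
    refine ⟨S, M, hS, hM, ?_⟩
    have := Finset.card_le_univ S
    omega
  obtain ⟨v⟩ : Nonempty V := by
    rw [← Fintype.card_pos_iff]; omega
  -- X moves first in both games
  obtain ⟨S, M, hS, hM, -, -, hS2, hSM⟩ := lockstep P Q _ ∅ ∅ ∅ ∅ (hP true) hQ (by simp) (by simp)
    rfl
  -- X moves second in the first game
  obtain ⟨y, hy, hy2⟩ := ystep P _ _ (hP false) v (by simp)
  obtain ⟨S', M', hS', hM', -, -, hS2', hSM'⟩ := lockstep P Q _ ∅ (insert y ∅) ∅ ∅ hy2 hQ
    (by simp) (by simp) rfl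
  have e1 : ((((∅ : Finset V) ∪ ∅) ∪ (∅ ∪ ∅))ᶜ).card = Fintype.card V := by simp
  have e2 : ((((∅ : Finset V) ∪ (insert y ∅)) ∪ (∅ ∪ ∅))ᶜ).card = Fintype.card V - 1 := by
    simp [Finset.card_compl]
  rw [e1] at hSM
  rw [e2] at hSM'
  simp only [Finset.empty_inter, Finset.card_empty, zero_add, add_zero, insert_empty_eq,
    Finset.card_singleton] at hS2 hSM hS2' hSM'
  by_cases hcase : S.card ≤ (S ∩ M).card + (Fintype.card V - 2) / 6
  · exact ⟨S, M, hS, hM, hcase⟩
  · refine ⟨S', M', hS', hM', ?_⟩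
    rw [gain, if_neg hn] at hSM
    rw [gain] at hSM'
    by_cases hn1 : Fintype.card V = 1
    · omega
    · rw [if_neg (by omega)] at hSM'
      omega

end

/-- **Theorem.** Let `F` be a hypergraph on a board of `n` points with gap factor at least `c`.
Then some winning set `A` satisfies `c * (|A| - ⌊(n - 2) / 6⌋) ≤ |A|`. -/
theorem result : ∀ (V : Type) [Fintype V] [DecidableEq V] (F : Finset (Finset V)) (c : ℝ),
    GapFactorAtLeast F c →
      ∃ A ∈ F, c * ((A.card : ℝ) - (((Fintype.card V - 2) / 6 : ℕ) : ℝ)) ≤ (A.card : ℝ) := by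
  intro V _ _ F c hgap
  obtain ⟨hc1, hgap⟩ := hgap
  obtain ⟨S, M, ⟨A, hA, hAS⟩, hM, hcard⟩ := full_set (V := V) _ _ (fun b => (hgap b).1)
    (hgap true).2
  refine ⟨A, hA, ?_⟩
  have hMA := hM A hA
  have hcpos : (0 : ℝ) < c := by linarith
  rw [le_div_iff₀ hcpos] at hMA
  have h1 : A.card ≤ (M ∩ A).card + (Fintype.card V - 2) / 6 := by
    have h2 : A \ M ⊆ S \ M := Finset.sdiff_subset_sdiff hAS subset_rfl
    have h3 := Finset.card_le_card h2
    have h4 := Finset.card_sdiff_add_card_inter A M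
    have h5 := Finset.card_sdiff_add_card_inter S M
    rw [Finset.inter_comm M A]
    omega
  have h2 : (A.card : ℝ) - (((Fintype.card V - 2) / 6 : ℕ) : ℝ) ≤ ((M ∩ A).card : ℝ) := by
    have : (A.card : ℝ) ≤ ((M ∩ A).card : ℝ) + (((Fintype.card V - 2) / 6 : ℕ) : ℝ) := by
      exact_mod_cast h1
    linarith
  calc c * ((A.card : ℝ) - (((Fintype.card V - 2) / 6 : ℕ) : ℝ)) ≤ c * ((M ∩ A).card : ℝ) :=
        mul_le_mul_of_nonneg_left h2 hcpos.le
    _ ≤ (A.card : ℝ) := by rw [mul_comm]; exact hMA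

end Pool.Agent.Results.MP_c0ff68_co.BoardSize
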