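import Mathlib

set_option autoImplicit false

namespace Pool.Agent.Results.MP_c0ff68_co.GapBySize

/-- Two players, X and Y, alternately claim one unclaimed element of the finite board `V` until
the whole board is claimed.  `Forces P b X Y` says: from the position in which player X has
claimed the set `X`, player Y has claimed the set `Y`, and player X is to move if `b = true`
(player Y if `b = false`), player Y has a strategy which guarantees that the set claimed by
player X at the end of the game satisfies `P`. -/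
inductive Forces {V : Type} [Fintype V] [DecidableEq V] (P : Finset V → Prop) :
    Bool → Finset V → Finset V → Prop
  | finished (b : Bool) (X Y : Finset V) (hfull : X ∪ Y = Finset.univ) (hP : P X) : Forces P b X Y
  | xmove (X Y : Finset V) (hne : X ∪ Y ≠ Finset.univ)
      (h : ∀ v : V, v ∉ X ∪ Y → Forces P false (insert v X) Y) : Forces P true X Y
  | ymove (X Y : Finset V) (v : V) (hv : v ∉ X ∪ Y)
      (h : Forces P true X (insert v Y)) : Forces P false X Y

/-- The hypergraph `F` has gap factor at least `c`: whoever moves first (`b` ranges over both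
possibilities), Forcer (player Y) can force Avoider (player X) to claim all of some `A ∈ F`, and
Breaker (player Y) can guarantee that Maker (player X) ends up with at most `|A| / c` elements of
every `A ∈ F`. -/
def GapFactorAtLeast {V : Type} [Fintype V] [DecidableEq V] (F : Finset (Finset V)) (c : ℝ) :
    Prop :=
  1 ≤ c ∧ ∀ b : Bool,
    Forces (fun S => ∃ A ∈ F, A ⊆ S) b ∅ ∅ ∧
    Forces (fun M => ∀ A ∈ F, ((M ∩ A).card : ℝ) ≤ (A.card : ℝ) / c) b ∅ ∅

section
variable {V : Type} [Fintype V] [DecidableEq V]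

/-- Greedy play inside `A`: X gets half of the free part of `A`. -/
lemma greedy (P : Finset V → Prop) (A : Finset V) (b : Bool) (X Y : Finset V)
    (h : Forces P b X Y) :
    ∃ M : Finset V, X ⊆ M ∧ P M ∧
      2 * (X ∩ A).card + (A \ (X ∪ Y)).card ≤ 2 * (M ∩ A).card + (if b then 0 else 1) := by
  induction h with
  | finished b X Y hfull hP =>
    refine ⟨X, subset_rfl, hP, ?_⟩
    have : A \ (X ∪ Y) = ∅ := by
      rw [hfull]; ext x; simp
    rw [this]; simp
  | xmove X Y hne h ih =>
    by_cases hA : (A \ (X ∪ Y)).Nonempty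
    · obtain ⟨v, hv⟩ := hA
      rw [Finset.mem_sdiff] at hv
      obtain ⟨M, hM1, hM2, hM3⟩ := ih v hv.2
      refine ⟨M, (Finset.subset_insert v X).trans hM1, hM2, ?_⟩
      have hvX : v ∉ X := fun hh => hv.2 (Finset.mem_union_left _ hh)
      have h1 : ((insert v X) ∩ A).card = (X ∩ A).card + 1 := by
        rw [Finset.insert_inter_of_mem hv.1, Finset.card_insert_of_notMem]
        simp [hvX]
      have h2 : (A \ (insert v X ∪ Y)).card + 1 = (A \ (X ∪ Y)).card := by
        have : insert v (A \ (insert v X ∪ Y)) = A \ (X ∪ Y) := by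
          ext x
          simp only [Finset.mem_insert, Finset.mem_sdiff, Finset.mem_union, not_or]
          constructor
          · rintro (rfl | ⟨hx1, ⟨hx2, hx3⟩, hx4⟩)
            · have := hv.2
              simp only [Finset.mem_union, not_or] at this
              exact ⟨hv.1, this⟩
            · exact ⟨hx1, hx3, hx4⟩
          · rintro ⟨hx1, hx2, hx3⟩
            by_cases hxv : x = v
            · exact Or.inl hxv
            · exact Or.inr ⟨hx1, ⟨hxv, hx2⟩, hx3⟩
        rw [← this, Finset.card_insert_of_notMem]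
        simp
      simp only [Bool.false_eq_true, if_false, if_true] at hM3 ⊢
      omega
    · rw [Finset.not_nonempty_iff_eq_empty] at hA
      obtain ⟨v, hv⟩ : ∃ v, v ∉ X ∪ Y := by
        by_contra hcon
        push Not at hcon
        exact hne (Finset.eq_univ_iff_forall.mpr hcon)
      obtain ⟨M, hM1, hM2, -⟩ := ih v hv
      have hXM : X ⊆ M := (Finset.subset_insert v X).trans hM1
      refine ⟨M, hXM, hM2, ?_⟩
      have := Finset.card_le_card (Finset.inter_subset_inter_right hXM (u := A))
      rw [hA]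
      simp only [Finset.card_empty, if_true]
      omega
  | ymove X Y v hv h ih =>
    obtain ⟨M, hM1, hM2, hM3⟩ := ih
    refine ⟨M, hM1, hM2, ?_⟩
    have : (A \ (X ∪ Y)).card ≤ (A \ (X ∪ insert v Y)).card + 1 := by
      have hsub : A \ (X ∪ Y) ⊆ insert v (A \ (X ∪ insert v Y)) := by
        intro x
        simp only [Finset.mem_insert, Finset.mem_sdiff, Finset.mem_union, not_or]
        rintro ⟨hx1, hx2, hx3⟩
        by_cases hxv : x = v
        · exact Or.inl hxv
        · exact Or.inr ⟨hx1, hx2, hxv, hx3⟩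
      exact (Finset.card_le_card hsub).trans (Finset.card_insert_le _ _)
    simp only [Bool.false_eq_true, if_false, if_true] at hM3 ⊢
    omega

/-- Invariant of the pairing strategy of player X. -/
def Inv (π : V → V) (X Y : Finset V) : Prop :=
  (∀ x ∈ X, x ∉ Y) ∧ (∀ x ∈ X, π x = x ∨ π x ∈ Y) ∧ (∀ y ∈ Y, π y ∈ X) ∧
    (∀ v, π v = v → v ∈ X)

lemma pairing (P : Finset V → Prop) (π : V → V) (hπ : ∀ x, π (π x) = x) (b : Bool)
    (X Y : Finset V) (h : Forces P b X Y) :
    (b = false → Inv π X Y → ∃ M, P M ∧ ∀ x ∈ M, π x = x ∨ π x ∉ M) ∧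
    (b = true → ∀ w, w ∉ X ∪ Y → Inv π (insert w X) Y →
      ∃ M, P M ∧ ∀ x ∈ M, π x = x ∨ π x ∉ M) := by
  induction h with
  | finished b X Y hfull hP =>
    refine ⟨fun _ hI => ⟨X, hP, fun x hx => ?_⟩, fun _ w hw _ => ?_⟩
    · rcases hI.2.1 x hx with h1 | h1
      · exact Or.inl h1
      · exact Or.inr (fun h2 => hI.1 _ h2 h1)
    · exact absurd (Finset.mem_univ w) (hfull ▸ hw)
  | xmove X Y hne h ih =>
    refine ⟨fun hb => absurd hb (by decide), fun _ w hw hI => ?_⟩
    exact (ih w hw).1 rfl hI
  | ymove X Y v hv h ih =>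
    refine ⟨fun _ hI => ?_, fun hb => absurd hb (by decide)⟩
    simp only [Finset.mem_union, not_or] at hv
    obtain ⟨hI1, hI2, hI3, hI4⟩ := hI
    have hπv : π v ≠ v := fun hh => hv.1 (hI4 v hh)
    have hπX : π v ∉ X := by
      intro hh
      rcases hI2 _ hh with h1 | h1
      · rw [hπ] at h1; exact hπv h1.symm
      · rw [hπ] at h1; exact hv.2 h1
    have hπY : π v ∉ Y := by
      intro hh
      have := hI3 _ hh
      rw [hπ] at this; exact hv.1 this
    refine ih.2 rfl (π v) ?_ ?_
    · simp only [Finset.mem_union, Finset.mem_insert, not_or]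
      exact ⟨hπX, hπv, hπY⟩
    · refine ⟨?_, ?_, ?_, ?_⟩
      · intro x hx
        rw [Finset.mem_insert] at hx ⊢
        rcases hx with rfl | hx
        · rintro (h1 | h1)
          · exact hπv h1
          · exact hπY h1
        · rintro (h1 | h1)
          · exact hv.1 (h1 ▸ hx)
          · exact hI1 x hx h1
      · intro x hx
        rw [Finset.mem_insert] at hx
        rcases hx with rfl | hx
        · right; rw [hπ]; exact Finset.mem_insert_self _ _
        · rcases hI2 x hx with h1 | h1
          · exact Or.inl h1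
          · exact Or.inr (Finset.mem_insert_of_mem h1)
      · intro y hy
        rw [Finset.mem_insert] at hy ⊢
        rcases hy with rfl | hy
        · exact Or.inl rfl
        · exact Or.inr (hI3 y hy)
      · intro x hx
        exact Finset.mem_insert_of_mem (hI4 x hx)

/-- A fixed point free self map of a finite set leaves a periodic point. -/
lemma exists_periodic (R : Finset V) (hR : R.Nonempty) (u : V → V) (hu : ∀ x ∈ R, u x ∈ R) :
    ∃ c ∈ R, ∃ n : ℕ, 0 < n ∧ u^[n] c = c := by
  obtain ⟨x, hx⟩ := hR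
  have hmem : ∀ k : ℕ, u^[k] x ∈ R := by
    intro k
    induction k with
    | zero => simpa using hx
    | succ k ih => rw [Function.iterate_succ_apply']; exact hu _ ih
  obtain ⟨i, j, hij, hEq⟩ : ∃ i j : ℕ, i ≠ j ∧ u^[i] x = u^[j] x := by
    by_contra hcon
    push Not at hcon
    have hinj : Function.Injective (fun k : ℕ => u^[k] x) := by
      intro a b hab
      by_contra hne
      exact hcon a b hne hab
    exact not_injective_infinite_finite _ hinj
  wlog hlt : i < j generalizing i j
  · exact this j i hij.symm hEq.symm (by omega)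
  refine ⟨u^[i] x, hmem i, j - i, by omega, ?_⟩
  rw [← Function.iterate_add_apply, Nat.sub_add_cancel hlt.le]
  exact hEq.symm

lemma iterate_mem_of_closed (A : Finset V) (u : V → V) (hA : ∀ x ∈ A, u x ∈ A) (x : V)
    (hx : x ∈ A) (k : ℕ) : u^[k] x ∈ A := by
  induction k with
  | zero => simpa using hx
  | succ k ih => rw [Function.iterate_succ_apply']; exact hA _ ih

/-- Pairing lemma: a fixed point free self map `u` of `R` admits an involution with at most one
fixed point in `R` such that every nonempty `u`-closed set contains a pair of it. -/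
lemma exists_pairing (k : ℕ) : ∀ (R : Finset V), R.card = k → ∀ (u : V → V),
    (∀ x ∈ R, u x ∈ R ∧ u x ≠ x) →
    ∃ π : V → V, (∀ x, π (π x) = x) ∧ (∀ x, x ∉ R → π x = x) ∧ (∀ x ∈ R, π x ∈ R) ∧
      (∀ x ∈ R, ∀ y ∈ R, π x = x → π y = y → x = y) ∧
      (∀ A : Finset V, A ⊆ R → A.Nonempty → (∀ x ∈ A, u x ∈ A) → ∃ x ∈ A, π x ∈ A ∧ π x ≠ x) := by
  induction k using Nat.strong_induction_on with
  | _ k IH =>
  intro R hRk u hu
  by_cases hR : R.Nonempty
  swap
  · rw [Finset.not_nonempty_iff_eq_empty] at hR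
    subst hR
    refine ⟨id, fun _ => rfl, fun _ _ => rfl, by simp, by simp, ?_⟩
    intro A hA hAne
    rw [Finset.subset_empty] at hA
    exact absurd hA hAne.ne_empty
  obtain ⟨c, hc, n, hn, hper⟩ := exists_periodic R hR u (fun x hx => (hu x hx).1)
  have hc' : u c ∈ R := (hu c hc).1
  have hne : u c ≠ c := (hu c hc).2
  -- closed sets meeting the pair contain it
  have hclosed : ∀ A : Finset V, (∀ x ∈ A, u x ∈ A) → (c ∈ A ∨ u c ∈ A) → c ∈ A ∧ u c ∈ A := by
    intro A hA h
    rcases h with h | h
    · exact ⟨h, hA c h⟩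
    · refine ⟨?_, h⟩
      have := iterate_mem_of_closed A u hA (u c) h (n - 1)
      rw [← Function.iterate_succ_apply, Nat.succ_eq_add_one, Nat.sub_add_cancel hn, hper] at this
      exact this
  set R' := (R.erase c).erase (u c) with hR'
  have hmemR' : ∀ x, x ∈ R' ↔ x ≠ u c ∧ x ≠ c ∧ x ∈ R := by
    intro x; simp [hR', Finset.mem_erase]
  have hcard' : R'.card < k := by
    have h1 : R' ⊆ R.erase c := Finset.erase_subset _ _
    have h2 := Finset.card_le_card h1
    rw [Finset.card_erase_of_mem hc] at h2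
    have : 0 < R.card := Finset.card_pos.mpr hR
    omega
  by_cases hsmall : R'.card ≤ 1
  · refine ⟨Equiv.swap c (u c), fun x => Equiv.swap_apply_self _ _ _, ?_, ?_, ?_, ?_⟩
    · intro x hx
      exact Equiv.swap_apply_of_ne_of_ne (fun h => hx (h ▸ hc)) (fun h => hx (h ▸ hc'))
    · intro x hx
      by_cases h1 : x = c
      · rw [h1, Equiv.swap_apply_left]; exact hc'
      · by_cases h2 : x = u c
        · rw [h2, Equiv.swap_apply_right]; exact hc
        · rw [Equiv.swap_apply_of_ne_of_ne h1 h2]; exact hx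
    · intro x hx y hy hxf hyf
      have key : ∀ w ∈ R, Equiv.swap c (u c) w = w → w ∈ R' := by
        intro w hw hwf
        rw [hmemR']
        refine ⟨?_, ?_, hw⟩
        · intro h; rw [h, Equiv.swap_apply_right] at hwf; exact hne hwf.symm
        · intro h; rw [h, Equiv.swap_apply_left] at hwf; exact hne hwf
      exact Finset.card_le_one.mp hsmall x (key x hx hxf) y (key y hy hyf)
    · intro A hAR hAne hA
      by_cases h : c ∈ A ∨ u c ∈ A
      · obtain ⟨h1, h2⟩ := hclosed A hA h
        exact ⟨c, h1, by rw [Equiv.swap_apply_left]; exact h2,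
          by rw [Equiv.swap_apply_left]; exact hne⟩
      · push Not at h
        obtain ⟨x, hx⟩ := hAne
        have hxR' : x ∈ R' := (hmemR' x).mpr ⟨fun e => h.2 (e ▸ hx), fun e => h.1 (e ▸ hx), hAR hx⟩
        have hux : u x ∈ A := hA x hx
        have huxR' : u x ∈ R' :=
          (hmemR' _).mpr ⟨fun e => h.2 (e ▸ hux), fun e => h.1 (e ▸ hux), hAR hux⟩
        exact absurd (Finset.card_le_one.mp hsmall _ huxR' _ hxR') (hu x (hAR hx)).2
  · push Not at hsmall
    have hother : ∀ x, ∃ y ∈ R', y ≠ x := by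
      intro x
      obtain ⟨y, hy, hyx⟩ := Finset.exists_mem_ne hsmall x
      exact ⟨y, hy, hyx⟩
    choose o ho1 ho2 using hother
    obtain ⟨π', hπ1, hπ2, hπ3, hπ4, hπ5⟩ := IH R'.card hcard' R' rfl
      (fun x => if u x = c ∨ u x = u c then o x else u x) (by
        intro x hx
        rw [hmemR'] at hx
        by_cases h : u x = c ∨ u x = u c
        · simp only [h, if_true]; exact ⟨ho1 x, ho2 x⟩
        · simp only [h, if_false]
          push Not at h
          exact ⟨(hmemR' _).mpr ⟨h.2, h.1, (hu x hx.2.2).1⟩, (hu x hx.2.2).2⟩)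
    have hcR' : c ∉ R' := by rw [hmemR']; simp
    have hucR' : u c ∉ R' := by rw [hmemR']; simp
    have hπ'ne : ∀ x, x ≠ c → x ≠ u c → π' x ≠ c ∧ π' x ≠ u c := by
      intro x h1 h2
      by_cases hx : x ∈ R
      · have := hπ3 x ((hmemR' x).mpr ⟨h2, h1, hx⟩)
        rw [hmemR'] at this
        exact ⟨this.2.1, this.1⟩
      · have hxR' : x ∉ R' := fun hh => hx ((hmemR' x).mp hh).2.2
        rw [hπ2 x hxR']; exact ⟨h1, h2⟩
    refine ⟨fun x => if x = c then u c else if x = u c then c else π' x, ?_, ?_, ?_, ?_, ?_⟩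
    · intro x
      by_cases h1 : x = c
      · simp [h1, hne]
      · by_cases h2 : x = u c
        · simp [h2, hne]
        · obtain ⟨h3, h4⟩ := hπ'ne x h1 h2
          simp [h1, h2, h3, h4, hπ1]
    · intro x hx
      have h1 : x ≠ c := fun h => hx (h ▸ hc)
      have h2 : x ≠ u c := fun h => hx (h ▸ hc')
      have h3 : x ∉ R' := fun hh => hx ((hmemR' x).mp hh).2.2
      simp [h1, h2, hπ2 x h3]
    · intro x hx
      by_cases h1 : x = c
      · simp [h1, hc']
      · by_cases h2 : x = u c
        · simp [h2, hne, hc]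
        · have := hπ3 x ((hmemR' x).mpr ⟨h2, h1, hx⟩)
          simp only [h1, h2, if_false]
          exact ((hmemR' _).mp this).2.2
    · intro x hx y hy hxf hyf
      have key : ∀ w ∈ R, (if w = c then u c else if w = u c then c else π' w) = w →
          w ∈ R' ∧ π' w = w := by
        intro w hw hwf
        by_cases h1 : w = c
        · simp only [h1, if_true] at hwf; exact absurd hwf hne
        · by_cases h2 : w = u c
          · rw [h2] at hwf; simp only [hne, if_false, if_true] at hwf
            exact absurd hwf.symm hne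
          · simp only [h1, h2, if_false] at hwf
            exact ⟨(hmemR' w).mpr ⟨h2, h1, hw⟩, hwf⟩
      obtain ⟨a1, a2⟩ := key x hx hxf
      obtain ⟨b1, b2⟩ := key y hy hyf
      exact hπ4 x a1 y b1 a2 b2
    · intro A hAR hAne hA
      by_cases h : c ∈ A ∨ u c ∈ A
      · obtain ⟨h1, h2⟩ := hclosed A hA h
        exact ⟨c, h1, by simpa using h2, by simpa using hne⟩
      · push Not at h
        have hAR' : A ⊆ R' := fun x hx =>
          (hmemR' x).mpr ⟨fun e => h.2 (e ▸ hx), fun e => h.1 (e ▸ hx), hAR hx⟩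
        obtain ⟨x, hx, hx1, hx2⟩ := hπ5 A hAR' hAne (by
          intro x hx
          have hux := hA x hx
          have h1 : ¬ (u x = c ∨ u x = u c) := by
            rintro (e | e)
            · exact h.1 (e ▸ hux)
            · exact h.2 (e ▸ hux)
          simp only [h1, if_false]; exact hux)
        have h1 : x ≠ c := fun e => h.1 (e ▸ hx)
        have h2 : x ≠ u c := fun e => h.2 (e ▸ hx)
        exact ⟨x, hx, by simpa [h1, h2] using hx1, by simpa [h1, h2] using hx2⟩

end

/-- If Breaker keeps Maker to at most `a / c` elements of a set of `a` elements and Maker gets more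
than half of it, then `c ≤ a / (⌊a / 2⌋ + 1)`. -/
lemma share_le {a m : ℕ} {c : ℝ} (hc1 : 1 ≤ c) (hm : a + 1 ≤ 2 * m)
    (h : (m : ℝ) ≤ (a : ℝ) / c) : c ≤ (a : ℝ) / ((a / 2 + 1 : ℕ) : ℝ) := by
  have hcpos : (0 : ℝ) < c := by linarith
  rw [le_div_iff₀ hcpos] at h
  have hm2 : a / 2 + 1 ≤ m := by omega
  have hmr : ((a / 2 + 1 : ℕ) : ℝ) ≤ m := by exact_mod_cast hm2
  have hpos : (0 : ℝ) < ((a / 2 + 1 : ℕ) : ℝ) := by positivity
  rw [le_div_iff₀ hpos, mul_comm]
  exact (mul_le_mul_of_nonneg_right hmr hcpos.le).trans h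

/-- **Theorem.** If a finite hypergraph `F` with nonempty winning sets has gap factor at least `c`
then some winning set `A` satisfies `c ≤ |A| / (⌊|A| / 2⌋ + 1)`. -/
theorem result : ∀ (V : Type) [Fintype V] [DecidableEq V] (F : Finset (Finset V)),
    (∀ A ∈ F, A.Nonempty) → ∀ c : ℝ, GapFactorAtLeast F c →
      ∃ A ∈ F, c ≤ (A.card : ℝ) / ((A.card / 2 + 1 : ℕ) : ℝ) := by
  intro V _ _ F hF c hgap
  by_contra hc
  push Not at hc
  obtain ⟨hc1, hgap⟩ := hgap
  -- F is nonempty
  obtain ⟨M0, -, ⟨A0, hA0F, -⟩, -⟩ := greedy _ ∅ _ _ _ (hgap true).1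
  -- the reply of Breaker to a first move in a winning set stays in that set
  have hreply : ∀ x : V, (∃ A ∈ F, x ∈ A) → ∃ y : V, y ≠ x ∧ ∀ A ∈ F, x ∈ A → y ∈ A := by
    rintro x ⟨A1, hA1, hxA1⟩
    have hMB := (hgap true).2
    cases hMB with
    | finished b X Y hfull hP =>
      have : x ∈ (∅ ∪ ∅ : Finset V) := by rw [hfull]; exact Finset.mem_univ x
      simp at this
    | xmove X Y hne h =>
      have h1 := h x (by simp)
      cases h1 with
      | finished b X Y hfull hP =>
        have h2 := hP A1 hA1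
        have hAcard : A1 = {x} := by
          apply Finset.eq_singleton_iff_unique_mem.mpr
          refine ⟨hxA1, fun y _ => ?_⟩
          have : y ∈ (insert x ∅ ∪ ∅ : Finset V) := by rw [hfull]; exact Finset.mem_univ y
          simpa using this
        refine absurd (share_le hc1 ?_ h2) (not_le.mpr (hc A1 hA1))
        rw [hAcard]
        simp
      | ymove X Y y hy h2 =>
        have hyx : y ≠ x := by
          intro e; apply hy; simp [e]
        refine ⟨y, hyx, ?_⟩
        intro A hA hxA
        by_contra hyA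
        obtain ⟨M, hM1, hM2, hM3⟩ := greedy _ A _ _ _ h2
        refine absurd (share_le hc1 ?_ (hM2 A hA)) (not_le.mpr (hc A hA))
        have h5 : (insert x ∅ ∩ A : Finset V).card = 1 := by
          rw [Finset.insert_inter_of_mem hxA]; simp
        have h6 : (A \ (insert x ∅ ∪ insert y ∅)).card + 1 = A.card := by
          have : A \ (insert x ∅ ∪ insert y ∅) = A.erase x := by
            ext w
            simp only [Finset.mem_sdiff, Finset.mem_union, Finset.mem_insert, Finset.notMem_empty,
              or_false, not_or, Finset.mem_erase]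
            constructor
            · rintro ⟨h7, h8, h9⟩; exact ⟨h8, h7⟩
            · rintro ⟨h7, h8⟩; exact ⟨h8, h7, fun e => hyA (e ▸ h8)⟩
          rw [this]; exact Finset.card_erase_add_one hxA
        simp only [if_true] at hM3
        omega
  obtain ⟨x0, hx0⟩ := hF A0 hA0F
  obtain ⟨y0, hy0, -⟩ := hreply x0 ⟨A0, hA0F, hx0⟩
  have htotal : ∀ x : V, ∃ y : V, y ≠ x ∧ ∀ A ∈ F, x ∈ A → y ∈ A := by
    intro x
    by_cases hx : ∃ A ∈ F, x ∈ A
    · exact hreply x hx
    · push Not at hx
      by_cases h : x = x0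
      · exact ⟨y0, fun e => hy0 (e.trans h), fun A hA hxA => absurd hxA (hx A hA)⟩
      · exact ⟨x0, fun e => h e.symm, fun A hA hxA => absurd hxA (hx A hA)⟩
  choose u hu1 hu2 using htotal
  obtain ⟨π, hπ1, -, -, hπ4, hπ5⟩ := exists_pairing _ (Finset.univ : Finset V) rfl u
    (fun x _ => ⟨Finset.mem_univ _, hu1 x⟩)
  have hcontra : ∀ M : Finset V, (∃ A ∈ F, A ⊆ M) → ¬ (∀ x ∈ M, π x = x ∨ π x ∉ M) := by
    rintro M ⟨A, hA, hAM⟩ hM
    obtain ⟨x, hx, hx1, hx2⟩ := hπ5 A (Finset.subset_univ _) (hF A hA)
      (fun x hx => hu2 x A hA hx)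
    rcases hM x (hAM hx) with h | h
    · exact hx2 h
    · exact h (hAM hx1)
  by_cases hfix : ∃ z, π z = z
  · obtain ⟨z, hz⟩ := hfix
    obtain ⟨M, hM1, hM2⟩ := (pairing _ π hπ1 _ _ _ (hgap true).1).2 rfl z (by simp) (by
      refine ⟨by simp, ?_, by simp, ?_⟩
      · intro x hx
        simp only [insert_empty_eq, Finset.mem_singleton] at hx
        rw [hx]; exact Or.inl hz
      · intro v hv
        simp only [insert_empty_eq, Finset.mem_singleton]
        exact hπ4 v (Finset.mem_univ _) z (Finset.mem_univ _) hv hz)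
    exact hcontra M hM1 hM2
  · push Not at hfix
    obtain ⟨M, hM1, hM2⟩ := (pairing _ π hπ1 _ _ _ (hgap false).1).1 rfl (by
      refine ⟨by simp, by simp, by simp, ?_⟩
      intro v hv
      exact absurd hv (hfix v))
    exact hcontra M hM1 hM2

/-- Corollary: every gap factor is less than `2`. -/
theorem lt_two (V : Type) [Fintype V] [DecidableEq V] (F : Finset (Finset V))
    (hF : ∀ A ∈ F, A.Nonempty) (c : ℝ) (hgap : GapFactorAtLeast F c) : c < 2 := by
  obtain ⟨A, -, hA⟩ := result V F hF c hgap
  refine lt_of_le_of_lt hA ?_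
  rw [div_lt_iff₀ (by positivity)]
  have h : A.card < 2 * (A.card / 2 + 1) := by omega
  exact_mod_cast h

/-- Corollary: if all winning sets have at most `2 * k` elements then the gap factor is at most
`2 - 1 / k`. -/
theorem le_of_card_le (V : Type) [Fintype V] [DecidableEq V] (F : Finset (Finset V))
    (hF : ∀ A ∈ F, A.Nonempty) (k : ℕ) (hk : ∀ A ∈ F, A.card ≤ 2 * k) (c : ℝ)
    (hgap : GapFactorAtLeast F c) : c ≤ 2 - 1 / (k : ℝ) := by
  obtain ⟨A, hAF, hA⟩ := result V F hF c hgap
  have hAk := hk A hAF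
  have hApos := Finset.card_pos.mpr (hF A hAF)
  have hkpos : 0 < k := by omega
  have hkr : (0 : ℝ) < k := by exact_mod_cast hkpos
  refine hA.trans ?_
  rw [div_le_iff₀ (by positivity)]
  have h1 : A.card * k + (A.card / 2 + 1) ≤ 2 * k * (A.card / 2 + 1) := by
    obtain ⟨r, hr | hr⟩ := Nat.even_or_odd' A.card
    · rw [hr]
      have h2 : 2 * r / 2 = r := by omega
      rw [h2]
      have h3 : r ≤ k := by omega
      nlinarith
    · rw [hr]
      have h2 : (2 * r + 1) / 2 = r := by omega
      rw [h2]
      have h3 : r + 1 ≤ k := by omega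
      nlinarith
  have h1r : (A.card : ℝ) * k + ((A.card / 2 + 1 : ℕ) : ℝ)
      ≤ 2 * k * ((A.card / 2 + 1 : ℕ) : ℝ) := by exact_mod_cast h1
  have h4 : (2 - 1 / (k : ℝ)) * ((A.card / 2 + 1 : ℕ) : ℝ)
      = (2 * k * ((A.card / 2 + 1 : ℕ) : ℝ) - ((A.card / 2 + 1 : ℕ) : ℝ)) / k := by
    field_simp
  rw [h4, le_div_iff₀ hkr]
  linarith

end Pool.Agent.Results.MP_c0ff68_co.GapBySize
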