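import Mathlib

set_option autoImplicit false

namespace Pool.Agent.Results.MP_c0ff68_co.LocalPairings

/-- Two players, X and Y, alternately claim one unclaimed element of the finite board `V` until
the whole board is claimed.  `Forces P b X Y` says: from the position in which player X has
claimed the set `X`, player Y has claimed the set `Y`, and player X is to move if `b = true`
(player Y if `b = false`), player Y has a strategy which guarantees that the set claimed by
player X at the end of the game satisfies `P`. -/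
inductive Forces {V : Type} [Fintype V] [DecidableEq V] (P : Finset V → Prop) :
    Bool → Finset V → Finset V → Prop
  | finished (b : Bool) (X Y : Finset V) (hfull : X ∪ Y = Finset.univ) (hP : P X) : Forces P b X Y
  | xmove (X Y : Finset V) (hne : X ∪ Y ≠ Finset.univ)
      (h : ∀ v : V, v ∉ X ∪ Y → Forces P false (insert v X) Y) : Forces P true X Y
  | ymove (X Y : Finset V) (v : V) (hv : v ∉ X ∪ Y)
      (h : Forces P true X (insert v Y)) : Forces P false X Y

/-- The hypergraph `F` has gap factor at least `c`: whoever moves first (`b` ranges over both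
possibilities), Forcer (player Y) can force Avoider (player X) to claim all of some `A ∈ F`, and
Breaker (player Y) can guarantee that Maker (player X) ends up with at most `|A| / c` elements of
every `A ∈ F`. -/
def GapFactorAtLeast {V : Type} [Fintype V] [DecidableEq V] (F : Finset (Finset V)) (c : ℝ) :
    Prop :=
  1 ≤ c ∧ ∀ b : Bool,
    Forces (fun S => ∃ A ∈ F, A ⊆ S) b ∅ ∅ ∧
    Forces (fun M => ∀ A ∈ F, ((M ∩ A).card : ℝ) ≤ (A.card : ℝ) / c) b ∅ ∅

/-- The board is divided into blocks by the labels `ℓ`, and `d i` is the number of adaptive replies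
which are still allowed for moves in block `i`; an element is *settled* if its block has no such
reply left.  `IsPairing ℓ d π X Y`: `π` pairs up the settled unclaimed elements of the position
`X`, `Y`, with at most one of them left over (a fixed point of `π`). -/
def IsPairing {V ι : Type} [DecidableEq V] (ℓ : V → ι) (d : ι → ℕ) (π : V → V)
    (X Y : Finset V) : Prop :=
  (∀ x, x ∉ X ∪ Y → d (ℓ x) = 0 → π x ∉ X ∪ Y ∧ d (ℓ (π x)) = 0 ∧ π (π x) = x) ∧
    (∀ x y, x ∉ X ∪ Y → y ∉ X ∪ Y → d (ℓ x) = 0 → d (ℓ y) = 0 → π x = x → π y = y → x = y)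

/-- Player X is to move and `k` rounds are left (the game ends with a move of player Y).
Player Y guarantees `P`, playing as follows.  He holds a pairing `π` of the settled elements.  When
X claims an element `v`, he claims an element `u` and takes a pairing `ρ` for the next round, in one
of the following ways.
* `v` is settled and has a partner: he claims the partner, `u = π v`, and `ρ` is *any* pairing
  which leaves over no other settled element than `π` (so the pairing may be changed after every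
  round, at no cost).
* `v` is not settled: `u` and `ρ` are arbitrary; this uses one of the `d (ℓ v)` adaptive replies of
  the block of `v`.
* `v` is the left over settled element: `u` and `ρ` are arbitrary.
* At any other time, but at most `r` times in the whole game, `u` and `ρ` are arbitrary. -/
def LocalForces {V ι : Type} [Fintype V] [DecidableEq V] [DecidableEq ι] (P : Finset V → Prop)
    (ℓ : V → ι) : ℕ → (ι → ℕ) → ℕ → (V → V) → Finset V → Finset V → Prop
  | 0, _, _, _, X, Y => X ∪ Y = Finset.univ ∧ P X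
  | k + 1, d, r, π, X, Y => X ∪ Y ≠ Finset.univ ∧ ∀ v, v ∉ X ∪ Y →
      ∃ (d' : ι → ℕ) (r' : ℕ) (u : V) (ρ : V → V), u ∉ insert v X ∪ Y ∧
        IsPairing ℓ d' ρ (insert v X) (insert u Y) ∧
        LocalForces P ℓ k d' r' ρ (insert v X) (insert u Y) ∧
        ((d (ℓ v) = 0 ∧ π v ≠ v ∧ u = π v ∧ d' = d ∧ r' = r ∧
            ∀ x, x ∉ insert v X ∪ insert u Y → d (ℓ x) = 0 → ρ x = x → π x = x) ∨
          (0 < d (ℓ v) ∧ d' = Function.update d (ℓ v) (d (ℓ v) - 1) ∧ r' = r) ∨
          (d (ℓ v) = 0 ∧ π v = v ∧ d' = d ∧ r' = r) ∨ (d' = d ∧ r = r' + 1))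

/-- Player Y has such a strategy for the whole game, moving second if the board has an even number
of elements and first if it has an odd number of elements (so that he makes the last move). -/
def StartLocal {V ι : Type} [Fintype V] [DecidableEq V] [DecidableEq ι] (P : Finset V → Prop)
    (ℓ : V → ι) (d : ι → ℕ) (r : ℕ) : Prop :=
  (Fintype.card V % 2 = 0 ∧
      ∃ (k : ℕ) (π : V → V), IsPairing ℓ d π ∅ ∅ ∧ LocalForces P ℓ k d r π ∅ ∅) ∨
    (Fintype.card V % 2 = 1 ∧
      ∃ (u : V) (k : ℕ) (π : V → V), IsPairing ℓ d π ∅ {u} ∧ LocalForces P ℓ k d r π ∅ {u})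

section
variable {V : Type} [Fintype V] [DecidableEq V]

/-- Some final position is reached, and player X has the expected number of elements. -/
lemma finish (P : Finset V → Prop) (b : Bool) (X Y : Finset V) (h : Forces P b X Y)
    (hd : Disjoint X Y) :
    ∃ S : Finset V, X ⊆ S ∧ P S ∧
      (b = true → 2 * S.card + Y.card =
        Fintype.card V + X.card + (Fintype.card V + X.card + Y.card) % 2) ∧
      (b = false → 2 * S.card + Y.card + (Fintype.card V + X.card + Y.card) % 2 =
        Fintype.card V + X.card) := by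
  induction h with
  | finished b X Y hfull hP =>
    have h1 : X.card + Y.card = Fintype.card V := by
      rw [← Finset.card_union_of_disjoint hd, hfull, Finset.card_univ]
    exact ⟨X, subset_rfl, hP, fun _ => by omega, fun _ => by omega⟩
  | xmove X Y hne h ih =>
    obtain ⟨v, hv⟩ : ∃ v, v ∉ X ∪ Y := by
      by_contra hcon
      push Not at hcon
      exact hne (Finset.eq_univ_iff_forall.mpr hcon)
    have hv' := hv
    rw [Finset.mem_union, not_or] at hv'
    obtain ⟨S, h1, h2, -, h3⟩ := ih v hv (Finset.disjoint_insert_left.mpr ⟨hv'.2, hd⟩)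
    refine ⟨S, (Finset.subset_insert v X).trans h1, h2, fun _ => ?_, fun h => by simp at h⟩
    have h4 := h3 rfl
    rw [Finset.card_insert_of_notMem hv'.1] at h4
    omega
  | ymove X Y v hv h ih =>
    have hv' := hv
    rw [Finset.mem_union, not_or] at hv'
    obtain ⟨S, h1, h2, h3, -⟩ := ih (Finset.disjoint_insert_right.mpr ⟨hv'.1, hd⟩)
    refine ⟨S, h1, h2, fun h => by simp at h, fun _ => ?_⟩
    have h4 := h3 rfl
    rw [Finset.card_insert_of_notMem hv'.2] at h4
    omega

/-- One move of player X. -/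
lemma xstep (P : Finset V → Prop) (X Y : Finset V) (h : Forces P true X Y) (v : V)
    (hv : v ∉ X ∪ Y) : Forces P false (insert v X) Y := by
  cases h with
  | finished b X Y hfull hP => exact absurd (Finset.mem_univ v) (hfull ▸ hv)
  | xmove X Y hne h => exact h v hv

/-- The reply of player Y, if the board is not yet full. -/
lemma ystep (P : Finset V → Prop) (X Y : Finset V) (h : Forces P false X Y) (w : V)
    (hw : w ∉ X ∪ Y) : ∃ u, u ∉ X ∪ Y ∧ Forces P true X (insert u Y) := by
  cases h with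
  | finished b X Y hfull hP => exact absurd (Finset.mem_univ w) (hfull ▸ hw)
  | ymove X Y u hu h => exact ⟨u, hu, h⟩

omit [Fintype V] in
lemma disjoint_step (X Y : Finset V) (hd : Disjoint X Y) (v u : V) (hv : v ∉ X ∪ Y)
    (hu : u ∉ insert v X ∪ Y) : Disjoint (insert v X) (insert u Y) := by
  rw [Finset.mem_union, not_or] at hv hu
  exact Finset.disjoint_insert_right.mpr ⟨hu.1, Finset.disjoint_insert_left.mpr ⟨hv.2, hd⟩⟩

omit [Fintype V] [DecidableEq V] in
/-- A set with a fixed point free involution has even size. -/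
lemma even_card (π : V → V) (Q : Finset V) (h1 : ∀ x ∈ Q, π x ∈ Q)
    (h2 : ∀ x ∈ Q, π x ≠ x) (h3 : ∀ x ∈ Q, π (π x) = x) : Q.card % 2 = 0 := by
  have h : ∑ x ∈ Q, (1 : ZMod 2) = 0 :=
    Finset.sum_involution (fun x _ => π x) (fun x _ => by decide) (fun x hx _ => h2 x hx)
      (fun x hx => h1 x hx) (fun x hx => h3 x hx)
  rw [Finset.sum_const, nsmul_eq_mul, mul_one, ZMod.natCast_eq_zero_iff] at h
  omega

omit [Fintype V] in
lemma card_sdiff_insert (Y₁ Y₂ : Finset V) (y u : V) :
    (insert u Y₂ \ insert y Y₁).card ≤ (Y₂ \ Y₁).card + 1 := by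
  have h1 : insert u Y₂ \ insert y Y₁ ⊆ insert u (Y₂ \ Y₁) := by
    intro x hx
    simp only [Finset.mem_sdiff, Finset.mem_insert, not_or] at hx ⊢
    tauto
  exact (Finset.card_le_card h1).trans (Finset.card_insert_le _ _)

omit [Fintype V] in
lemma card_sdiff_insert_left (Y₁ Y₂ : Finset V) (y u : V) (hu : u ∈ Y₁) :
    (insert u Y₂ \ insert y Y₁).card ≤ (Y₂ \ Y₁).card := by
  apply Finset.card_le_card
  intro x hx
  simp only [Finset.mem_sdiff, Finset.mem_insert, not_or] at hx ⊢
  obtain ⟨h1 | h1, h2, h3⟩ := hx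
  · exact absurd (h1 ▸ hu) h3
  · exact ⟨h1, h3⟩

omit [Fintype V] in
lemma card_sdiff_insert_right (Y₁ Y₂ : Finset V) (y u : V) (hy : y ∈ Y₂) (hy' : y ∉ Y₁) :
    (insert u Y₂ \ insert y Y₁).card ≤ (Y₂ \ Y₁).card := by
  have h1 : insert u Y₂ \ insert y Y₁ ⊆ insert u ((Y₂ \ Y₁).erase y) := by
    intro x hx
    simp only [Finset.mem_sdiff, Finset.mem_insert, not_or, Finset.mem_erase] at hx ⊢
    tauto
  have h2 := Finset.card_le_card h1
  have h3 := Finset.card_insert_le u ((Y₂ \ Y₁).erase y)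
  have h4 : ((Y₂ \ Y₁).erase y).card + 1 = (Y₂ \ Y₁).card :=
    Finset.card_erase_add_one (Finset.mem_sdiff.mpr ⟨hy, hy'⟩)
  omega

lemma exists_free (X Y : Finset V) (h : X.card + Y.card < Fintype.card V) : ∃ w, w ∉ X ∪ Y := by
  by_contra hcon
  push Not at hcon
  have h1 : X ∪ Y = Finset.univ := Finset.eq_univ_iff_forall.mpr hcon
  have h2 := Finset.card_union_le X Y
  rw [h1, Finset.card_univ] at h2
  omega

lemma card_lt_of_free (X Y : Finset V) (hd : Disjoint X Y) (u : V) (hu : u ∉ X ∪ Y) :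
    X.card + Y.card < Fintype.card V := by
  rw [← Finset.card_union_of_disjoint hd, ← Finset.card_univ]
  exact Finset.card_lt_card (Finset.ssubset_univ_iff.mpr (fun h9 => hu (h9 ▸ Finset.mem_univ u)))

/-- At most `w` elements are free on both boards. -/
lemma few_white (S M X Y₁ Y₂ W : Finset V) (hW : ∀ v, v ∈ X ∨ v ∈ Y₁ ∨ v ∈ Y₂ ∨ v ∈ W)
    (hXS : X ⊆ S) (hXM : X ⊆ M)
    (hcard : 2 * S.card + Y₁.card = Fintype.card V + X.card) :
    2 * (S \ M).card ≤ (Y₂ \ Y₁).card + W.card := by
  have h1 : (S \ M).card ≤ (S \ X).card :=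
    Finset.card_le_card (Finset.sdiff_subset_sdiff subset_rfl hXM)
  have h2 : (S \ X).card + X.card = S.card := Finset.card_sdiff_add_card_eq_card hXS
  have h3 : Fintype.card V ≤ X.card + (Y₁.card + ((Y₂ \ Y₁).card + W.card)) := by
    have : (Finset.univ : Finset V) ⊆ X ∪ (Y₁ ∪ ((Y₂ \ Y₁) ∪ W)) := by
      intro v _
      simp only [Finset.mem_union, Finset.mem_sdiff]
      have := hW v
      tauto
    have h4 := Finset.card_le_card this
    rw [Finset.card_univ] at h4
    have h5 := Finset.card_union_le X (Y₁ ∪ ((Y₂ \ Y₁) ∪ W))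
    have h6 := Finset.card_union_le Y₁ ((Y₂ \ Y₁) ∪ W)
    have h7 := Finset.card_union_le (Y₂ \ Y₁) W
    omega
  omega

/-- Player X moves to an element free on both boards and the unrestricted player answers. -/
lemma free_reply (P : Finset V → Prop) (X Y : Finset V) (hd : Disjoint X Y)
    (hpar : (Fintype.card V + X.card + Y.card) % 2 = 0) (h : Forces P true X Y) (v : V)
    (hv : v ∉ X ∪ Y) : ∃ y, y ∉ insert v X ∪ Y ∧ Forces P true (insert v X) (insert y Y) := by
  have h1 := xstep P X Y h v hv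
  have hlt := card_lt_of_free X Y hd v hv
  rw [Finset.mem_union, not_or] at hv
  obtain ⟨w, hw⟩ := exists_free (insert v X) Y (by
    rw [Finset.card_insert_of_notMem hv.1]
    omega)
  exact ystep P _ _ h1 w hw

variable {ι : Type} [DecidableEq ι]

omit [Fintype V] [DecidableEq ι] in
lemma partner_free (ℓ : V → ι) (d : ι → ℕ) (π : V → V) (X Y : Finset V)
    (hπ : IsPairing ℓ d π X Y) (v : V) (hv : v ∉ X ∪ Y) (hd : d (ℓ v) = 0) (hne : π v ≠ v) :
    π v ∉ insert v X ∪ Y := by
  obtain ⟨h1, -, -⟩ := hπ.1 v hv hd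
  rw [Finset.mem_union, not_or] at h1
  rw [Finset.mem_union, Finset.mem_insert, not_or, not_or]
  exact ⟨⟨hne, h1.1⟩, h1.2⟩

omit [Fintype V] [DecidableEq ι] in
lemma pairing_step (ℓ : V → ι) (d : ι → ℕ) (π : V → V) (X Y : Finset V)
    (hπ : IsPairing ℓ d π X Y) (v : V) (hv : v ∉ X ∪ Y) (hd : d (ℓ v) = 0) :
    IsPairing ℓ d π (insert v X) (insert (π v) Y) := by
  constructor
  · intro x hx hdx
    simp only [Finset.mem_union, Finset.mem_insert, not_or] at hx
    obtain ⟨⟨hxv, hxX⟩, hxp, hxY⟩ := hx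
    obtain ⟨h1, h2, h3⟩ := hπ.1 x (by rw [Finset.mem_union, not_or]; exact ⟨hxX, hxY⟩) hdx
    rw [Finset.mem_union, not_or] at h1
    refine ⟨?_, h2, h3⟩
    simp only [Finset.mem_union, Finset.mem_insert, not_or]
    refine ⟨⟨fun e => hxp ?_, h1.1⟩, fun e => hxv ?_, h1.2⟩
    · rw [← e, h3]
    · rw [← h3, e, (hπ.1 v hv hd).2.2]
  · intro x y hx hy
    simp only [Finset.mem_union, Finset.mem_insert, not_or] at hx hy
    exact hπ.2 x y (by rw [Finset.mem_union, not_or]; exact ⟨hx.1.2, hx.2.2⟩)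
      (by rw [Finset.mem_union, not_or]; exact ⟨hy.1.2, hy.2.2⟩)

/-- Some final position is reached. -/
lemma finishL (P : Finset V → Prop) (ℓ : V → ι) (k : ℕ) : ∀ (d : ι → ℕ) (r : ℕ) (π : V → V)
    (X Y : Finset V), Disjoint X Y → IsPairing ℓ d π X Y → LocalForces P ℓ k d r π X Y →
    ∃ S : Finset V, X ⊆ S ∧ P S ∧ 2 * S.card + Y.card = Fintype.card V + X.card := by
  induction k with
  | zero =>
    intro d r π X Y hd _ h
    refine ⟨X, subset_rfl, h.2, ?_⟩
    have h1 : X.card + Y.card = Fintype.card V := by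
      rw [← Finset.card_union_of_disjoint hd, h.1, Finset.card_univ]
    omega
  | succ k ih =>
    intro d r π X Y hd hπ h
    obtain ⟨hne, h⟩ := h
    obtain ⟨v, hv⟩ : ∃ v, v ∉ X ∪ Y := by
      by_contra hcon
      push Not at hcon
      exact hne (Finset.eq_univ_iff_forall.mpr hcon)
    have key : ∀ (d' : ι → ℕ) (r' : ℕ) (u : V) (ρ : V → V), u ∉ insert v X ∪ Y →
        IsPairing ℓ d' ρ (insert v X) (insert u Y) →
        LocalForces P ℓ k d' r' ρ (insert v X) (insert u Y) →
        ∃ S : Finset V, X ⊆ S ∧ P S ∧ 2 * S.card + Y.card = Fintype.card V + X.card := by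
      intro d' r' u ρ hu hρ hF
      obtain ⟨S, h1, h2, h3⟩ := ih d' r' ρ _ _ (disjoint_step X Y hd v u hv hu) hρ hF
      rw [Finset.mem_union, not_or] at hu hv
      refine ⟨S, (Finset.subset_insert _ _).trans h1, h2, ?_⟩
      rw [Finset.card_insert_of_notMem hv.1, Finset.card_insert_of_notMem hu.2] at h3
      omega
    obtain ⟨d', r', u, ρ, hu, hρ, hF, -⟩ := h v hv
    exact key d' r' u ρ hu hρ hF

/-- The settled left over element, as a set. -/
def leftover (ℓ : V → ι) (d : ι → ℕ) (π : V → V) (X Y₁ Y₂ : Finset V) : Finset V :=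
  Finset.univ.filter (fun x => (x ∉ X ∧ x ∉ Y₁ ∧ x ∉ Y₂) ∧ d (ℓ x) = 0 ∧ π x = x)

omit [DecidableEq ι] in
lemma mem_leftover (ℓ : V → ι) (d : ι → ℕ) (π : V → V) (X Y₁ Y₂ : Finset V) (x : V) :
    x ∈ leftover ℓ d π X Y₁ Y₂ ↔ (x ∉ X ∧ x ∉ Y₁ ∧ x ∉ Y₂) ∧ d (ℓ x) = 0 ∧ π x = x := by
  simp [leftover]

omit [DecidableEq ι] in
lemma card_leftover (ℓ : V → ι) (d : ι → ℕ) (π : V → V) (X Yo Yr : Finset V)
    (hπ : IsPairing ℓ d π X Yr) : (leftover ℓ d π X Yo Yr).card ≤ 1 := by
  rw [Finset.card_le_one]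
  intro x hx y hy
  rw [mem_leftover] at hx hy
  exact hπ.2 x y (by rw [Finset.mem_union, not_or]; exact ⟨hx.1.1, hx.1.2.2⟩)
    (by rw [Finset.mem_union, not_or]; exact ⟨hy.1.1, hy.1.2.2⟩) hx.2.1 hy.2.1 hx.2.2 hy.2.2

omit [DecidableEq ι] in
/-- Parity.  `Yr` is the set of the restricted player, `Yo` that of the other one.  If all elements
free on both boards are settled and none of them has its partner in `Yo`, then `|Yo \ Yr|` is even
if and only if no left over element is free on both boards. -/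
lemma parity (ℓ : V → ι) (d : ι → ℕ) (π : V → V) (X Yo Yr : Finset V)
    (hdo : Disjoint X Yo) (hdr : Disjoint X Yr)
    (hpar : (Fintype.card V + X.card + Yr.card) % 2 = 0) (hπ : IsPairing ℓ d π X Yr)
    (hU : ∀ x, x ∉ X → x ∉ Yo → x ∉ Yr → d (ℓ x) = 0)
    (hN : ∀ x, x ∉ X → x ∉ Yo → x ∉ Yr → π x ≠ x → π x ∉ Yo) :
    ((Yo \ Yr).card + (leftover ℓ d π X Yo Yr).card) % 2 = 0 := by
  classical
  set A : Finset V := Finset.univ.filter (fun x => x ∉ X ∧ x ∉ Yr) with hA
  have hAmem : ∀ x, x ∈ A ↔ x ∉ X ∧ x ∉ Yr := by intro x; simp [hA]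
  have hAcard : A.card + (X.card + Yr.card) = Fintype.card V := by
    have h1 : Disjoint A (X ∪ Yr) := by
      rw [Finset.disjoint_left]
      intro x hx hx'
      rw [hAmem] at hx
      rw [Finset.mem_union] at hx'
      tauto
    have h2 : A ∪ (X ∪ Yr) = Finset.univ := by
      ext x
      simp only [Finset.mem_union, Finset.mem_univ, iff_true]
      rw [hAmem]
      tauto
    rw [← Finset.card_union_of_disjoint hdr, ← Finset.card_union_of_disjoint h1, h2,
      Finset.card_univ]
  -- split `A`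
  have s1 : (A.filter (fun x => d (ℓ x) = 0)).card + (A.filter (fun x => ¬ d (ℓ x) = 0)).card
      = A.card := Finset.card_filter_add_card_filter_not _
  have s2 : ((A.filter (fun x => d (ℓ x) = 0)).filter (fun x => π x = x)).card +
      ((A.filter (fun x => d (ℓ x) = 0)).filter (fun x => ¬ π x = x)).card
      = (A.filter (fun x => d (ℓ x) = 0)).card := Finset.card_filter_add_card_filter_not _
  have e1 : ((A.filter (fun x => d (ℓ x) = 0)).filter (fun x => ¬ π x = x)).card % 2 = 0 := by
    apply even_card π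
    · intro x hx
      simp only [Finset.mem_filter, hAmem] at hx ⊢
      obtain ⟨⟨⟨h1, h2⟩, h3⟩, h4⟩ := hx
      obtain ⟨a1, a2, a3⟩ := hπ.1 x (by rw [Finset.mem_union, not_or]; exact ⟨h1, h2⟩) h3
      rw [Finset.mem_union, not_or] at a1
      exact ⟨⟨a1, a2⟩, by rw [a3]; exact fun e => h4 e.symm⟩
    · intro x hx
      simp only [Finset.mem_filter, hAmem] at hx
      exact hx.2
    · intro x hx
      simp only [Finset.mem_filter, hAmem] at hx
      exact (hπ.1 x (by rw [Finset.mem_union, not_or]; exact hx.1.1) hx.1.2).2.2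
  -- split `Yo \ Yr`
  set Z : Finset V := Yo \ Yr with hZ
  have hZmem : ∀ x, x ∈ Z ↔ x ∈ Yo ∧ x ∉ Yr := by intro x; rw [hZ, Finset.mem_sdiff]
  have hZX : ∀ x ∈ Z, x ∉ X := by
    intro x hx hxX
    exact Finset.disjoint_left.mp hdo hxX ((hZmem x).mp hx).1
  have t1 : (Z.filter (fun x => d (ℓ x) = 0)).card + (Z.filter (fun x => ¬ d (ℓ x) = 0)).card
      = Z.card := Finset.card_filter_add_card_filter_not _
  have t2 : ((Z.filter (fun x => d (ℓ x) = 0)).filter (fun x => π x = x)).card +
      ((Z.filter (fun x => d (ℓ x) = 0)).filter (fun x => ¬ π x = x)).card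
      = (Z.filter (fun x => d (ℓ x) = 0)).card := Finset.card_filter_add_card_filter_not _
  have e2 : ((Z.filter (fun x => d (ℓ x) = 0)).filter (fun x => ¬ π x = x)).card % 2 = 0 := by
    apply even_card π
    · intro x hx
      simp only [Finset.mem_filter] at hx ⊢
      obtain ⟨⟨h1, h3⟩, h4⟩ := hx
      have h1' := (hZmem x).mp h1
      obtain ⟨a1, a2, a3⟩ := hπ.1 x (by
        rw [Finset.mem_union, not_or]; exact ⟨hZX x h1, h1'.2⟩) h3
      rw [Finset.mem_union, not_or] at a1
      have hne : π (π x) ≠ π x := by rw [a3]; exact fun e => h4 e.symm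
      refine ⟨⟨(hZmem _).mpr ⟨?_, a1.2⟩, a2⟩, hne⟩
      by_contra h5
      exact hN (π x) a1.1 h5 a1.2 hne (by rw [a3]; exact h1'.1)
    · intro x hx
      simp only [Finset.mem_filter] at hx
      exact hx.2
    · intro x hx
      simp only [Finset.mem_filter] at hx
      exact (hπ.1 x (by
        rw [Finset.mem_union, not_or]; exact ⟨hZX x hx.1.1, ((hZmem x).mp hx.1.1).2⟩) hx.1.2).2.2
  -- comparison
  have c1 : A.filter (fun x => ¬ d (ℓ x) = 0) = Z.filter (fun x => ¬ d (ℓ x) = 0) := by
    ext x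
    simp only [Finset.mem_filter, hAmem, hZmem]
    constructor
    · rintro ⟨⟨h1, h2⟩, h3⟩
      refine ⟨⟨?_, h2⟩, h3⟩
      by_contra h4
      exact h3 (hU x h1 h4 h2)
    · rintro ⟨⟨h1, h2⟩, h3⟩
      exact ⟨⟨fun h4 => Finset.disjoint_left.mp hdo h4 h1, h2⟩, h3⟩
  have c2 : (A.filter (fun x => d (ℓ x) = 0)).filter (fun x => π x = x) =
      (Z.filter (fun x => d (ℓ x) = 0)).filter (fun x => π x = x) ∪ leftover ℓ d π X Yo Yr := by
    ext x
    simp only [Finset.mem_filter, Finset.mem_union, hAmem, hZmem, mem_leftover]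
    constructor
    · rintro ⟨⟨⟨h1, h2⟩, h3⟩, h4⟩
      by_cases h5 : x ∈ Yo
      · exact Or.inl ⟨⟨⟨h5, h2⟩, h3⟩, h4⟩
      · exact Or.inr ⟨⟨h1, h5, h2⟩, h3, h4⟩
    · rintro (⟨⟨⟨h1, h2⟩, h3⟩, h4⟩ | ⟨⟨h1, h5, h2⟩, h3, h4⟩)
      · exact ⟨⟨⟨fun h6 => Finset.disjoint_left.mp hdo h6 h1, h2⟩, h3⟩, h4⟩
      · exact ⟨⟨⟨h1, h2⟩, h3⟩, h4⟩
  have c3 : Disjoint ((Z.filter (fun x => d (ℓ x) = 0)).filter (fun x => π x = x))
      (leftover ℓ d π X Yo Yr) := by
    rw [Finset.disjoint_left]
    intro x hx hx'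
    simp only [Finset.mem_filter, hZmem] at hx
    rw [mem_leftover] at hx'
    exact hx'.1.2.1 hx.1.1.1
  have c4 := Finset.card_union_of_disjoint c3
  rw [← c2] at c4
  rw [c1] at s1
  omega

omit [Fintype V] in
lemma sdiff_comm_card (A B : Finset V) (h : A.card = B.card) : (A \ B).card = (B \ A).card := by
  have e1 := Finset.card_sdiff_add_card_inter A B
  have e2 := Finset.card_sdiff_add_card_inter B A
  rw [Finset.inter_comm B A] at e2
  omega

omit [DecidableEq ι] in
lemma leftover_mono (ℓ : V → ι) (d : ι → ℕ) (π : V → V) (X Yo Yr X' Yo' Yr' : Finset V)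
    (hX : X ⊆ X') (ho : Yo ⊆ Yo') (hr : Yr ⊆ Yr') :
    (leftover ℓ d π X' Yo' Yr').card ≤ (leftover ℓ d π X Yo Yr).card := by
  apply Finset.card_le_card
  intro x hx
  rw [mem_leftover] at hx ⊢
  exact ⟨⟨fun h => hx.1.1 (hX h), fun h => hx.1.2.1 (ho h), fun h => hx.1.2.2 (hr h)⟩, hx.2⟩

/-- The restricted player is the second player on board `r`, the other one on board `o`; all
elements free on both boards are settled. -/
lemma loc2 (Pr Po : Finset V → Prop) (ℓ : V → ι) (k : ℕ) : ∀ (d : ι → ℕ) (r : ℕ) (π : V → V)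
    (X Yr Yo : Finset V), Disjoint X Yr → Disjoint X Yo → Yo.card = Yr.card →
    (Fintype.card V + X.card + Yr.card) % 2 = 0 → IsPairing ℓ d π X Yr →
    LocalForces Pr ℓ k d r π X Yr → Forces Po true X Yo →
    (∀ x, x ∉ X → x ∉ Yo → x ∉ Yr → d (ℓ x) = 0) →
    ∃ Sr So : Finset V, Pr Sr ∧ Po So ∧ 2 * Sr.card + Yr.card = Fintype.card V + X.card ∧
      2 * So.card + Yo.card = Fintype.card V + X.card ∧
      (So \ Sr).card ≤ ((Yo \ Yr).card + (leftover ℓ d π X Yo Yr).card) / 2 + r := by
  induction k with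
  | zero =>
    intro d r π X Yr Yo hdr hdo hc hpar hπ hr ho hU
    obtain ⟨So, h3, h4, h5, -⟩ := finish Po true X Yo ho hdo
    have h6 := h5 rfl
    rw [hc, hpar, add_zero] at h6
    have h7 : X.card + Yr.card = Fintype.card V := by
      rw [← Finset.card_union_of_disjoint hdr, hr.1, Finset.card_univ]
    refine ⟨X, So, hr.2, h4, by omega, by omega, ?_⟩
    have h8 := few_white So X X Yo Yr ∅ (by
      intro v
      have : v ∈ X ∪ Yr := hr.1 ▸ Finset.mem_univ v
      rw [Finset.mem_union] at this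
      tauto) h3 subset_rfl (by omega)
    rw [Finset.card_empty, sdiff_comm_card Yr Yo hc.symm] at h8
    omega
  | succ k ih =>
    intro d r π X Yr Yo hdr hdo hc hpar hπ hr ho hU
    by_cases hW : ∃ v, v ∉ X ∧ v ∉ Yo ∧ v ∉ Yr ∧ π v ≠ v
    · -- the round in which X claims `v` on both boards
      have hL := card_leftover ℓ d π X Yo Yr hπ
      have round : ∀ v, v ∉ X → v ∉ Yo → v ∉ Yr → π v ≠ v →
          (π v ∈ Yo ∨ ((Yo \ Yr).card + (leftover ℓ d π X Yo Yr).card) % 2 = 0) →
          ∃ Sr So : Finset V, Pr Sr ∧ Po So ∧ 2 * Sr.card + Yr.card = Fintype.card V + X.card ∧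
            2 * So.card + Yo.card = Fintype.card V + X.card ∧
            (So \ Sr).card ≤ ((Yo \ Yr).card + (leftover ℓ d π X Yo Yr).card) / 2 + r := by
        intro v hvX hvo hvr hvπ hgood
        have hvf1 : v ∉ X ∪ Yo := by rw [Finset.mem_union, not_or]; exact ⟨hvX, hvo⟩
        have hvf2 : v ∉ X ∪ Yr := by rw [Finset.mem_union, not_or]; exact ⟨hvX, hvr⟩
        have hdv : d (ℓ v) = 0 := hU v hvX hvo hvr
        obtain ⟨y, hy, hP⟩ := free_reply Po X Yo hdo (by rw [hc]; exact hpar) ho v hvf1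
        have hy' := hy
        rw [Finset.mem_union, not_or] at hy'
        have step : ∀ (r' : ℕ) (u : V) (ρ : V → V), u ∉ insert v X ∪ Yr →
            IsPairing ℓ d ρ (insert v X) (insert u Yr) →
            LocalForces Pr ℓ k d r' ρ (insert v X) (insert u Yr) →
            ∃ Sr So : Finset V, Pr Sr ∧ Po So ∧
              2 * Sr.card + Yr.card = Fintype.card V + X.card ∧
              2 * So.card + Yo.card = Fintype.card V + X.card ∧
              (So \ Sr).card ≤ ((insert y Yo \ insert u Yr).card +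
                (leftover ℓ d ρ (insert v X) (insert y Yo) (insert u Yr)).card) / 2 + r' := by
          intro r' u ρ hu hρ hF
          have hu' := hu
          rw [Finset.mem_union, not_or] at hu'
          obtain ⟨Sr, So, h1, h2, h3, h4, h5⟩ := ih d r' ρ _ _ _
            (disjoint_step X Yr hdr v u hvf2 hu) (disjoint_step X Yo hdo v y hvf1 hy)
            (by rw [Finset.card_insert_of_notMem hy'.2, Finset.card_insert_of_notMem hu'.2, hc])
            (by rw [Finset.card_insert_of_notMem hu'.2, Finset.card_insert_of_notMem hvX]; omega)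
            hρ hF hP (by
              intro x hx1 hx2 hx3
              rw [Finset.mem_insert, not_or] at hx1 hx2 hx3
              exact hU x hx1.2 hx2.2 hx3.2)
          rw [Finset.card_insert_of_notMem hu'.2, Finset.card_insert_of_notMem hvX] at h3
          rw [Finset.card_insert_of_notMem hy'.2, Finset.card_insert_of_notMem hvX] at h4
          exact ⟨Sr, So, h1, h2, by omega, by omega, h5⟩
        obtain ⟨d', r', u, ρ, hu, hρ, hF, hopt⟩ := hr.2 v hvf2
        rcases hopt with ⟨-, -, rfl, rfl, rfl, hfix⟩ | ⟨h1, -, -⟩ | ⟨-, h1, -, -⟩ | ⟨rfl, h1⟩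
        · obtain ⟨Sr, So, h1, h2, h3, h4, h5⟩ := step r' (π v) ρ hu hρ hF
          refine ⟨Sr, So, h1, h2, h3, h4, ?_⟩
          have hLm : (leftover ℓ d' ρ (insert v X) (insert y Yo) (insert (π v) Yr)).card ≤
              (leftover ℓ d' π X Yo Yr).card := by
            apply Finset.card_le_card
            intro x hx
            rw [mem_leftover] at hx ⊢
            obtain ⟨⟨h6, h7, h8⟩, h9, h10⟩ := hx
            refine ⟨⟨fun h => h6 (Finset.mem_insert_of_mem h),
              fun h => h7 (Finset.mem_insert_of_mem h),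
              fun h => h8 (Finset.mem_insert_of_mem h)⟩, h9, hfix x ?_ h9 h10⟩
            rw [Finset.mem_union, not_or]
            exact ⟨h6, h8⟩
          rw [Finset.mem_union, not_or] at hu
          rcases hgood with hg | hg
          · have := card_sdiff_insert_right Yr Yo (π v) y hg hu.2
            omega
          · have := card_sdiff_insert Yr Yo (π v) y
            omega
        · omega
        · exact absurd h1 hvπ
        · obtain ⟨Sr, So, h2, h3, h4, h5, h6⟩ := step r' u ρ hu hρ hF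
          refine ⟨Sr, So, h2, h3, h4, h5, ?_⟩
          have h7 := card_leftover ℓ d' ρ (insert v X) (insert y Yo) (insert u Yr) hρ
          have h8 := card_sdiff_insert Yr Yo u y
          omega
      by_cases hneut : ∃ v, v ∉ X ∧ v ∉ Yo ∧ v ∉ Yr ∧ π v ≠ v ∧ π v ∈ Yo
      · obtain ⟨v, h3, h4, h5, h6, h7⟩ := hneut
        exact round v h3 h4 h5 h6 (Or.inl h7)
      · push Not at hneut
        obtain ⟨v, h3, h4, h5, h6⟩ := hW
        exact round v h3 h4 h5 h6 (Or.inr (parity ℓ d π X Yo Yr hdo hdr hpar hπ hU hneut))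
    · push Not at hW
      obtain ⟨So, h3, h4, h5, -⟩ := finish Po true X Yo ho hdo
      have h6 := h5 rfl
      rw [hc, hpar, add_zero] at h6
      obtain ⟨Sr, h7, h8, h9⟩ := finishL Pr ℓ (k + 1) d r π X Yr hdr hπ hr
      refine ⟨Sr, So, h8, h4, h9, by omega, ?_⟩
      have h10 := few_white So Sr X Yo Yr (leftover ℓ d π X Yo Yr) (by
        intro v
        by_cases hv1 : v ∈ X
        · tauto
        by_cases hv2 : v ∈ Yo
        · tauto
        by_cases hv3 : v ∈ Yr
        · tauto
        right; right; right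
        rw [mem_leftover]
        exact ⟨⟨hv1, hv2, hv3⟩, hU v hv1 hv2 hv3, hW v hv1 hv2 hv3⟩) h3 h7 (by omega)
      rw [sdiff_comm_card Yr Yo hc.symm] at h10
      omega

/-- The general statement: the potential is `|Yo \ Yr|` plus the number of adaptive replies. -/
lemma loc1 [Fintype ι] (Pr Po : Finset V → Prop) (ℓ : V → ι) (k : ℕ) : ∀ (d : ι → ℕ) (r : ℕ)
    (π : V → V) (X Yr Yo : Finset V), Disjoint X Yr → Disjoint X Yo → Yo.card = Yr.card →
    (Fintype.card V + X.card + Yr.card) % 2 = 0 → IsPairing ℓ d π X Yr →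
    LocalForces Pr ℓ k d r π X Yr → Forces Po true X Yo →
    ∃ Sr So : Finset V, Pr Sr ∧ Po So ∧ 2 * Sr.card + Yr.card = Fintype.card V + X.card ∧
      2 * So.card + Yo.card = Fintype.card V + X.card ∧
      (So \ Sr).card ≤ ((Yo \ Yr).card + ∑ i, d i) / 2 + r := by
  -- no element free on both boards is unsettled
  have settled : ∀ (k : ℕ) (d : ι → ℕ) (r : ℕ)
      (π : V → V) (X Yr Yo : Finset V), Disjoint X Yr → Disjoint X Yo → Yo.card = Yr.card →
      (Fintype.card V + X.card + Yr.card) % 2 = 0 → IsPairing ℓ d π X Yr →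
      LocalForces Pr ℓ k d r π X Yr → Forces Po true X Yo →
      (∀ x, x ∉ X → x ∉ Yo → x ∉ Yr → d (ℓ x) = 0) →
      ∃ Sr So : Finset V, Pr Sr ∧ Po So ∧ 2 * Sr.card + Yr.card = Fintype.card V + X.card ∧
        2 * So.card + Yo.card = Fintype.card V + X.card ∧
        (So \ Sr).card ≤ ((Yo \ Yr).card + ∑ i, d i) / 2 + r := by
    intro k d r π X Yr Yo hdr hdo hc hpar hπ hr ho hU
    obtain ⟨Sr, So, h1, h2, h3, h4, h5⟩ := loc2 Pr Po ℓ k d r π X Yr Yo hdr hdo hc hpar hπ hr ho hU
    refine ⟨Sr, So, h1, h2, h3, h4, ?_⟩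
    have hL := card_leftover ℓ d π X Yo Yr hπ
    by_cases hD : ∑ i, d i = 0
    · have hd0 : ∀ i, d i = 0 := by
        intro i
        exact Finset.sum_eq_zero_iff.mp hD i (Finset.mem_univ i)
      have hp := parity ℓ d π X ∅ Yr (by simp) hdr hpar hπ (fun x _ _ _ => hd0 _)
        (fun x _ _ _ _ => by simp)
      have h6 := card_leftover ℓ d π X ∅ Yr hπ
      have h7 := leftover_mono ℓ d π X ∅ Yr X Yo Yr subset_rfl (Finset.empty_subset _) subset_rfl
      rw [Finset.empty_sdiff, Finset.card_empty, zero_add] at hp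
      omega
    · omega
  induction k with
  | zero =>
    intro d r π X Yr Yo hdr hdo hc hpar hπ hr ho
    apply settled 0 d r π X Yr Yo hdr hdo hc hpar hπ hr ho
    intro x hx1 _ hx3
    have : x ∈ X ∪ Yr := hr.1 ▸ Finset.mem_univ x
    rw [Finset.mem_union] at this
    tauto
  | succ k ih =>
    intro d r π X Yr Yo hdr hdo hc hpar hπ hr ho
    by_cases hW : ∃ v, v ∉ X ∧ v ∉ Yo ∧ v ∉ Yr ∧ d (ℓ v) ≠ 0
    · obtain ⟨v, hvX, hvo, hvr, hdv⟩ := hW
      have hvf1 : v ∉ X ∪ Yo := by rw [Finset.mem_union, not_or]; exact ⟨hvX, hvo⟩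
      have hvf2 : v ∉ X ∪ Yr := by rw [Finset.mem_union, not_or]; exact ⟨hvX, hvr⟩
      obtain ⟨y, hy, hP⟩ := free_reply Po X Yo hdo (by rw [hc]; exact hpar) ho v hvf1
      have hy' := hy
      rw [Finset.mem_union, not_or] at hy'
      obtain ⟨d', r', u, ρ, hu, hρ, hF, hopt⟩ := hr.2 v hvf2
      have hu' := hu
      rw [Finset.mem_union, not_or] at hu'
      obtain ⟨Sr, So, h1, h2, h3, h4, h5⟩ := ih d' r' ρ _ _ _
        (disjoint_step X Yr hdr v u hvf2 hu) (disjoint_step X Yo hdo v y hvf1 hy)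
        (by rw [Finset.card_insert_of_notMem hy'.2, Finset.card_insert_of_notMem hu'.2, hc])
        (by rw [Finset.card_insert_of_notMem hu'.2, Finset.card_insert_of_notMem hvX]; omega)
        hρ hF hP
      rw [Finset.card_insert_of_notMem hu'.2, Finset.card_insert_of_notMem hvX] at h3
      rw [Finset.card_insert_of_notMem hy'.2, Finset.card_insert_of_notMem hvX] at h4
      refine ⟨Sr, So, h1, h2, by omega, by omega, ?_⟩
      have h8 := card_sdiff_insert Yr Yo u y
      rcases hopt with ⟨h9, -, -, -, -, -⟩ | ⟨h9, rfl, rfl⟩ | ⟨h9, -, -, -⟩ | ⟨rfl, h9⟩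
      · exact absurd h9 hdv
      · have e1 := Finset.sum_update_of_mem (Finset.mem_univ (ℓ v)) d (d (ℓ v) - 1)
        have e2 := Finset.sum_eq_add_sum_sdiff_singleton_of_mem (Finset.mem_univ (ℓ v)) d
        rw [e1] at h5
        omega
      · exact absurd h9 hdv
      · omega
    · push Not at hW
      exact settled (k + 1) d r π X Yr Yo hdr hdo hc hpar hπ hr ho hW

/-! ### The definition is sound (not used in the proof of the theorem) -/

/-- The strategies considered here are strategies. -/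
lemma localForces_forces (P : Finset V → Prop) (ℓ : V → ι) (k : ℕ) : ∀ (d : ι → ℕ) (r : ℕ)
    (π : V → V) (X Y : Finset V), IsPairing ℓ d π X Y → LocalForces P ℓ k d r π X Y →
    Forces P true X Y := by
  induction k with
  | zero =>
    intro d r π X Y _ h
    exact Forces.finished true X Y h.1 h.2
  | succ k ih =>
    intro d r π X Y hπ h
    refine Forces.xmove X Y h.1 ?_
    intro v hv
    obtain ⟨d', r', u, ρ, hu, hρ, hF, -⟩ := h.2 v hv
    exact Forces.ymove _ _ u hu (ih d' r' ρ _ _ hρ hF)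

end

/-- **Theorem.** Let `F` be a hypergraph on `n` points with gap factor at least `c`.  If Breaker or
Forcer has a strategy for it of the kind described at `LocalForces`, then some `A ∈ F` satisfies
`c * (|A| - ⌊(D + (n mod 2)) / 2⌋ - r) ≤ |A|`, where `D` is the total number of adaptive replies. -/
theorem result : ∀ (V : Type) [Fintype V] [DecidableEq V] (F : Finset (Finset V)) (c : ℝ)
    (ι : Type) [Fintype ι] [DecidableEq ι] (ℓ : V → ι) (d : ι → ℕ) (r : ℕ),
    GapFactorAtLeast F c →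
    (StartLocal (fun M => ∀ A ∈ F, ((M ∩ A).card : ℝ) ≤ (A.card : ℝ) / c) ℓ d r ∨
      StartLocal (fun S => ∃ A ∈ F, A ⊆ S) ℓ d r) →
    ∃ A ∈ F, c * ((A.card : ℝ) - ((((∑ i, d i) + Fintype.card V % 2) / 2 + r : ℕ) : ℝ))
      ≤ (A.card : ℝ) := by
  intro V _ _ F c ι _ _ ℓ d r hgap hstart
  obtain ⟨hc1, hgap⟩ := hgap
  obtain ⟨S, M, ⟨A, hA, hAS⟩, hM, hcard⟩ : ∃ S M : Finset V, (∃ A ∈ F, A ⊆ S) ∧
      (∀ A ∈ F, ((M ∩ A).card : ℝ) ≤ (A.card : ℝ) / c) ∧
      (S \ M).card ≤ ((∑ i, d i) + Fintype.card V % 2) / 2 + r := by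
    have hodd : Fintype.card V % 2 = 1 → Nonempty V := by
      intro h
      rw [← Fintype.card_pos_iff]
      omega
    have hone : ∀ y u : V, (({y} : Finset V) \ {u}).card ≤ 1 := by
      intro y u
      calc (({y} : Finset V) \ {u}).card ≤ ({y} : Finset V).card :=
            Finset.card_le_card Finset.sdiff_subset
        _ = 1 := Finset.card_singleton y
    rcases hstart with (⟨hn, k, π, h0, h1⟩ | ⟨hn, u, k, π, h0, h1⟩) |
      (⟨hn, k, π, h0, h1⟩ | ⟨hn, u, k, π, h0, h1⟩)
    · obtain ⟨Sr, So, h3, h4, h5, h6, h7⟩ := loc1 _ _ ℓ k d r π ∅ ∅ ∅ (by simp) (by simp) rfl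
        (by simpa using hn) h0 h1 (hgap true).1
      refine ⟨So, Sr, h4, h3, ?_⟩
      simp only [Finset.sdiff_self, Finset.card_empty, zero_add] at h7
      omega
    · obtain ⟨v⟩ := hodd hn
      obtain ⟨y, hy, hy2⟩ := ystep _ _ _ (hgap false).1 v (by simp)
      obtain ⟨Sr, So, h3, h4, h5, h6, h7⟩ := loc1 _ _ ℓ k d r π ∅ {u} (insert y ∅) (by simp)
        (by simp) (by simp) (by rw [Finset.card_singleton, Finset.card_empty]; omega) h0 h1 hy2
      refine ⟨So, Sr, h4, h3, ?_⟩
      have := hone y u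
      rw [insert_empty_eq] at h7
      omega
    · obtain ⟨Sr, So, h3, h4, h5, h6, h7⟩ := loc1 _ _ ℓ k d r π ∅ ∅ ∅ (by simp) (by simp) rfl
        (by simpa using hn) h0 h1 (hgap true).2
      refine ⟨Sr, So, h3, h4, ?_⟩
      simp only [Finset.sdiff_self, Finset.card_empty, zero_add] at h7
      rw [sdiff_comm_card Sr So (by omega)]
      omega
    · obtain ⟨v⟩ := hodd hn
      obtain ⟨y, hy, hy2⟩ := ystep _ _ _ (hgap false).2 v (by simp)
      obtain ⟨Sr, So, h3, h4, h5, h6, h7⟩ := loc1 _ _ ℓ k d r π ∅ {u} (insert y ∅) (by simp)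
        (by simp) (by simp) (by rw [Finset.card_singleton, Finset.card_empty]; omega) h0 h1 hy2
      refine ⟨Sr, So, h3, h4, ?_⟩
      have := hone y u
      rw [insert_empty_eq] at h6 h7
      rw [Finset.card_singleton] at h5 h6
      rw [sdiff_comm_card Sr So (by omega)]
      omega
  refine ⟨A, hA, ?_⟩
  have hMA := hM A hA
  have hcpos : (0 : ℝ) < c := by linarith
  rw [le_div_iff₀ hcpos] at hMA
  have h1 : A.card ≤ (M ∩ A).card + (((∑ i, d i) + Fintype.card V % 2) / 2 + r) := by
    have h2 : A \ M ⊆ S \ M := Finset.sdiff_subset_sdiff hAS subset_rfl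
    have h3 := Finset.card_le_card h2
    have h4 := Finset.card_sdiff_add_card_inter A M
    rw [Finset.inter_comm M A]
    omega
  have h2 : (A.card : ℝ) - ((((∑ i, d i) + Fintype.card V % 2) / 2 + r : ℕ) : ℝ)
      ≤ ((M ∩ A).card : ℝ) := by
    have : (A.card : ℝ) ≤ ((M ∩ A).card : ℝ) +
        ((((∑ i, d i) + Fintype.card V % 2) / 2 + r : ℕ) : ℝ) := by
      exact_mod_cast h1
    linarith
  calc c * ((A.card : ℝ) - ((((∑ i, d i) + Fintype.card V % 2) / 2 + r : ℕ) : ℝ))
        ≤ c * ((M ∩ A).card : ℝ) := mul_le_mul_of_nonneg_left h2 hcpos.le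
    _ ≤ (A.card : ℝ) := by rw [mul_comm]; exact hMA

end Pool.Agent.Results.MP_c0ff68_co.LocalPairings
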