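import Mathlib

set_option autoImplicit false

namespace Pool.Agent.Results.MP_c0ff68_co.OpenReplies

/-- Two players, X and Y, alternately claim one unclaimed element of the finite board `V` until
the whole board is claimed.  `Forces P b X Y` says: from the position in which player X has
claimed the set `X`, player Y has claimed the set `Y`, and player X is to move if `b = true`
(player Y if `b = false`), player Y has a strategy which guarantees that the set claimed by
player X at the end of the game satisfies `P`. -/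
inductive Forces {V : Type} [Fintype V] [DecidableEq V] (P : Finset V → Prop) :
    Bool → Finset V → Finset V → Prop
  | finished (b : Bool) (X Y : Finset V) (hfull : X ∪ Y = Finset.univ) (hP : P X) : Forces P b X Y
  | xmove (X Y : Finset V) (hne : X ∪ Y ≠ Finset.univ)
      (h : ∀ v : V, v ∉ X ∪ Y → Forces P false (insert v X) Y) : Forces P true X Y
  | ymove (X Y : Finset V) (v : V) (hv : v ∉ X ∪ Y)
      (h : Forces P true X (insert v Y)) : Forces P false X Y

/-- The hypergraph `F` has gap factor at least `c`: whoever moves first (`b` ranges over both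
possibilities), Forcer (player Y) can force Avoider (player X) to claim all of some `A ∈ F`, and
Breaker (player Y) can guarantee that Maker (player X) ends up with at most `|A| / c` elements of
every `A ∈ F`. -/
def GapFactorAtLeast {V : Type} [Fintype V] [DecidableEq V] (F : Finset (Finset V)) (c : ℝ) :
    Prop :=
  1 ≤ c ∧ ∀ b : Bool,
    Forces (fun S => ∃ A ∈ F, A ⊆ S) b ∅ ∅ ∧
    Forces (fun M => ∀ A ∈ F, ((M ∩ A).card : ℝ) ≤ (A.card : ℝ) / c) b ∅ ∅

/-- Player X is to move and `k` rounds are left (the game ends with a move of player Y).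
Player Y guarantees `P` with *`q`-open replies*: at every position, if `f v` is his reply to the
move `v` of X, then every set `Q` of exactly `q` unclaimed elements contains the reply to some move
outside `Q`. -/
def OpenForces {V : Type} [Fintype V] [DecidableEq V] (P : Finset V → Prop) (q : ℕ) :
    ℕ → Finset V → Finset V → Prop
  | 0, X, Y => X ∪ Y = Finset.univ ∧ P X
  | k + 1, X, Y => X ∪ Y ≠ Finset.univ ∧ ∃ f : V → V,
      (∀ Q : Finset V, (∀ x ∈ Q, x ∉ X ∪ Y) → Q.card = q →
        ∃ v, v ∉ X ∪ Y ∧ v ∉ Q ∧ f v ∈ Q) ∧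
      ∀ v, v ∉ X ∪ Y → f v ∉ insert v X ∪ Y ∧ OpenForces P q k (insert v X) (insert (f v) Y)

/-- Player Y has such a strategy for the whole game, moving second if the board has an even number
of elements and first if it has an odd number of elements (so that he makes the last move). -/
def StartOpen {V : Type} [Fintype V] [DecidableEq V] (P : Finset V → Prop) (q : ℕ) : Prop :=
  (Fintype.card V % 2 = 0 ∧ ∃ k : ℕ, OpenForces P q k ∅ ∅) ∨
    (Fintype.card V % 2 = 1 ∧ ∃ (u : V) (k : ℕ), OpenForces P q k ∅ {u})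

section
variable {V : Type} [Fintype V] [DecidableEq V]

/-- Some final position is reached, and player X has the expected number of elements. -/
lemma finish (P : Finset V → Prop) (b : Bool) (X Y : Finset V) (h : Forces P b X Y)
    (hd : Disjoint X Y) :
    ∃ S : Finset V, X ⊆ S ∧ P S ∧
      (b = true → 2 * S.card + Y.card =
        Fintype.card V + X.card + (Fintype.card V + X.card + Y.card) % 2) ∧
      (b = false → 2 * S.card + Y.card + (Fintype.card V + X.card + Y.card) % 2 =
        Fintype.card V + X.card) := by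
  induction h with
  | finished b X Y hfull hP =>
    have h1 : X.card + Y.card = Fintype.card V := by
      rw [← Finset.card_union_of_disjoint hd, hfull, Finset.card_univ]
    exact ⟨X, subset_rfl, hP, fun _ => by omega, fun _ => by omega⟩
  | xmove X Y hne h ih =>
    obtain ⟨v, hv⟩ : ∃ v, v ∉ X ∪ Y := by
      by_contra hcon
      push Not at hcon
      exact hne (Finset.eq_univ_iff_forall.mpr hcon)
    have hv' := hv
    rw [Finset.mem_union, not_or] at hv'
    obtain ⟨S, h1, h2, -, h3⟩ := ih v hv (Finset.disjoint_insert_left.mpr ⟨hv'.2, hd⟩)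
    refine ⟨S, (Finset.subset_insert v X).trans h1, h2, fun _ => ?_, fun h => by simp at h⟩
    have h4 := h3 rfl
    rw [Finset.card_insert_of_notMem hv'.1] at h4
    omega
  | ymove X Y v hv h ih =>
    have hv' := hv
    rw [Finset.mem_union, not_or] at hv'
    obtain ⟨S, h1, h2, h3, -⟩ := ih (Finset.disjoint_insert_right.mpr ⟨hv'.1, hd⟩)
    refine ⟨S, h1, h2, fun h => by simp at h, fun _ => ?_⟩
    have h4 := h3 rfl
    rw [Finset.card_insert_of_notMem hv'.2] at h4
    omega

/-- One move of player X. -/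
lemma xstep (P : Finset V → Prop) (X Y : Finset V) (h : Forces P true X Y) (v : V)
    (hv : v ∉ X ∪ Y) : Forces P false (insert v X) Y := by
  cases h with
  | finished b X Y hfull hP => exact absurd (Finset.mem_univ v) (hfull ▸ hv)
  | xmove X Y hne h => exact h v hv

/-- The reply of player Y, if the board is not yet full. -/
lemma ystep (P : Finset V → Prop) (X Y : Finset V) (h : Forces P false X Y) (w : V)
    (hw : w ∉ X ∪ Y) : ∃ u, u ∉ X ∪ Y ∧ Forces P true X (insert u Y) := by
  cases h with
  | finished b X Y hfull hP => exact absurd (Finset.mem_univ w) (hfull ▸ hw)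
  | ymove X Y u hu h => exact ⟨u, hu, h⟩

omit [Fintype V] in
lemma disjoint_step (X Y : Finset V) (hd : Disjoint X Y) (v u : V) (hv : v ∉ X ∪ Y)
    (hu : u ∉ insert v X ∪ Y) : Disjoint (insert v X) (insert u Y) := by
  rw [Finset.mem_union, not_or] at hv hu
  exact Finset.disjoint_insert_right.mpr ⟨hu.1, Finset.disjoint_insert_left.mpr ⟨hv.2, hd⟩⟩

omit [Fintype V] in
lemma card_sdiff_insert (Y₁ Y₂ : Finset V) (y u : V) :
    (insert u Y₂ \ insert y Y₁).card ≤ (Y₂ \ Y₁).card + 1 := by
  have h1 : insert u Y₂ \ insert y Y₁ ⊆ insert u (Y₂ \ Y₁) := by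
    intro x hx
    simp only [Finset.mem_sdiff, Finset.mem_insert, not_or] at hx ⊢
    tauto
  exact (Finset.card_le_card h1).trans (Finset.card_insert_le _ _)

omit [Fintype V] in
lemma card_sdiff_insert_right (Y₁ Y₂ : Finset V) (y u : V) (hy : y ∈ Y₂) (hy' : y ∉ Y₁) :
    (insert u Y₂ \ insert y Y₁).card ≤ (Y₂ \ Y₁).card := by
  have h1 : insert u Y₂ \ insert y Y₁ ⊆ insert u ((Y₂ \ Y₁).erase y) := by
    intro x hx
    simp only [Finset.mem_sdiff, Finset.mem_insert, not_or, Finset.mem_erase] at hx ⊢
    tauto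
  have h2 := Finset.card_le_card h1
  have h3 := Finset.card_insert_le u ((Y₂ \ Y₁).erase y)
  have h4 : ((Y₂ \ Y₁).erase y).card + 1 = (Y₂ \ Y₁).card :=
    Finset.card_erase_add_one (Finset.mem_sdiff.mpr ⟨hy, hy'⟩)
  omega

lemma exists_free (X Y : Finset V) (h : X.card + Y.card < Fintype.card V) : ∃ w, w ∉ X ∪ Y := by
  by_contra hcon
  push Not at hcon
  have h1 : X ∪ Y = Finset.univ := Finset.eq_univ_iff_forall.mpr hcon
  have h2 := Finset.card_union_le X Y
  rw [h1, Finset.card_univ] at h2
  omega

lemma card_lt_of_free (X Y : Finset V) (hd : Disjoint X Y) (u : V) (hu : u ∉ X ∪ Y) :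
    X.card + Y.card < Fintype.card V := by
  rw [← Finset.card_union_of_disjoint hd, ← Finset.card_univ]
  exact Finset.card_lt_card (Finset.ssubset_univ_iff.mpr (fun h9 => hu (h9 ▸ Finset.mem_univ u)))

/-- At most `w` elements are free on both boards. -/
lemma few_white (S M X Y₁ Y₂ W : Finset V) (hW : ∀ v, v ∈ X ∨ v ∈ Y₁ ∨ v ∈ Y₂ ∨ v ∈ W)
    (hXS : X ⊆ S) (hXM : X ⊆ M)
    (hcard : 2 * S.card + Y₁.card = Fintype.card V + X.card) :
    2 * (S \ M).card ≤ (Y₂ \ Y₁).card + W.card := by
  have h1 : (S \ M).card ≤ (S \ X).card :=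
    Finset.card_le_card (Finset.sdiff_subset_sdiff subset_rfl hXM)
  have h2 : (S \ X).card + X.card = S.card := Finset.card_sdiff_add_card_eq_card hXS
  have h3 : Fintype.card V ≤ X.card + (Y₁.card + ((Y₂ \ Y₁).card + W.card)) := by
    have : (Finset.univ : Finset V) ⊆ X ∪ (Y₁ ∪ ((Y₂ \ Y₁) ∪ W)) := by
      intro v _
      simp only [Finset.mem_union, Finset.mem_sdiff]
      have := hW v
      tauto
    have h4 := Finset.card_le_card this
    rw [Finset.card_univ] at h4
    have h5 := Finset.card_union_le X (Y₁ ∪ ((Y₂ \ Y₁) ∪ W))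
    have h6 := Finset.card_union_le Y₁ ((Y₂ \ Y₁) ∪ W)
    have h7 := Finset.card_union_le (Y₂ \ Y₁) W
    omega
  omega

/-- Player X moves to an element free on both boards and the unrestricted player answers. -/
lemma free_reply (P : Finset V → Prop) (X Y : Finset V) (hd : Disjoint X Y)
    (hpar : (Fintype.card V + X.card + Y.card) % 2 = 0) (h : Forces P true X Y) (v : V)
    (hv : v ∉ X ∪ Y) : ∃ y, y ∉ insert v X ∪ Y ∧ Forces P true (insert v X) (insert y Y) := by
  have h1 := xstep P X Y h v hv
  have hlt := card_lt_of_free X Y hd v hv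
  rw [Finset.mem_union, not_or] at hv
  obtain ⟨w, hw⟩ := exists_free (insert v X) Y (by
    rw [Finset.card_insert_of_notMem hv.1]
    omega)
  exact ystep P _ _ h1 w hw

omit [Fintype V] in
lemma sdiff_comm_card (A B : Finset V) (h : A.card = B.card) : (A \ B).card = (B \ A).card := by
  have e1 := Finset.card_sdiff_add_card_inter A B
  have e2 := Finset.card_sdiff_add_card_inter B A
  rw [Finset.inter_comm B A] at e2
  omega

/-- The strategies considered here are strategies (not used below). -/
lemma openForces_forces (P : Finset V → Prop) (q k : ℕ) : ∀ (X Y : Finset V),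
    OpenForces P q k X Y → Forces P true X Y := by
  induction k with
  | zero =>
    intro X Y h
    exact Forces.finished true X Y h.1 h.2
  | succ k ih =>
    intro X Y h
    obtain ⟨hne, f, -, hf⟩ := h
    refine Forces.xmove X Y hne ?_
    intro v hv
    exact Forces.ymove _ _ (f v) (hf v hv).1 (ih _ _ (hf v hv).2)

lemma finishO (P : Finset V → Prop) (q k : ℕ) : ∀ (X Y : Finset V), Disjoint X Y →
    OpenForces P q k X Y →
    ∃ S : Finset V, X ⊆ S ∧ P S ∧ 2 * S.card + Y.card = Fintype.card V + X.card := by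
  induction k with
  | zero =>
    intro X Y hd h
    refine ⟨X, subset_rfl, h.2, ?_⟩
    have h1 : X.card + Y.card = Fintype.card V := by
      rw [← Finset.card_union_of_disjoint hd, h.1, Finset.card_univ]
    omega
  | succ k ih =>
    intro X Y hd h
    obtain ⟨hne, f, -, hf⟩ := h
    obtain ⟨v, hv⟩ : ∃ v, v ∉ X ∪ Y := by
      by_contra hcon
      push Not at hcon
      exact hne (Finset.eq_univ_iff_forall.mpr hcon)
    obtain ⟨hu, hF⟩ := hf v hv
    obtain ⟨S, h1, h2, h3⟩ := ih _ _ (disjoint_step X Y hd v (f v) hv hu) hF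
    rw [Finset.mem_union, not_or] at hu hv
    refine ⟨S, (Finset.subset_insert _ _).trans h1, h2, ?_⟩
    rw [Finset.card_insert_of_notMem hv.1, Finset.card_insert_of_notMem hu.2] at h3
    omega

/-- The player with open replies plays on board `r`, the other one on board `o`. -/
lemma open1 (Pr Po : Finset V → Prop) (q k : ℕ) : ∀ (X Yr Yo : Finset V),
    Disjoint X Yr → Disjoint X Yo → Yo.card = Yr.card →
    (Fintype.card V + X.card + Yr.card) % 2 = 0 → (Yo \ Yr).card ≤ q →
    OpenForces Pr q k X Yr → Forces Po true X Yo →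
    ∃ Sr So : Finset V, Pr Sr ∧ Po So ∧ 2 * Sr.card + Yr.card = Fintype.card V + X.card ∧
      2 * So.card + Yo.card = Fintype.card V + X.card ∧ (So \ Sr).card ≤ q / 2 := by
  induction k with
  | zero =>
    intro X Yr Yo hdr hdo hc hpar hT hr ho
    obtain ⟨So, h3, h4, h5, -⟩ := finish Po true X Yo ho hdo
    have h6 := h5 rfl
    rw [hc, hpar, add_zero] at h6
    have h7 : X.card + Yr.card = Fintype.card V := by
      rw [← Finset.card_union_of_disjoint hdr, hr.1, Finset.card_univ]
    refine ⟨X, So, hr.2, h4, by omega, by omega, ?_⟩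
    have h8 := few_white So X X Yo Yr ∅ (by
      intro v
      have : v ∈ X ∪ Yr := hr.1 ▸ Finset.mem_univ v
      rw [Finset.mem_union] at this
      tauto) h3 subset_rfl (by omega)
    rw [Finset.card_empty, sdiff_comm_card Yr Yo hc.symm] at h8
    omega
  | succ k ih =>
    intro X Yr Yo hdr hdo hc hpar hT hr ho
    by_cases hW : ∃ v, v ∉ X ∧ v ∉ Yo ∧ v ∉ Yr
    · obtain ⟨-, f, hopen, hf⟩ := hr
      -- there is a move which does not increase the difference beyond `q`
      obtain ⟨v, hvX, hvo, hvr, hgood⟩ : ∃ v, v ∉ X ∧ v ∉ Yo ∧ v ∉ Yr ∧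
          ((Yo \ Yr).card < q ∨ f v ∈ Yo) := by
        by_cases h0 : (Yo \ Yr).card < q
        · obtain ⟨v, h1, h2, h3⟩ := hW
          exact ⟨v, h1, h2, h3, Or.inl h0⟩
        · obtain ⟨v, h1, h2, h3⟩ := hopen (Yo \ Yr) (by
            intro x hx
            rw [Finset.mem_sdiff] at hx
            rw [Finset.mem_union, not_or]
            exact ⟨fun h => Finset.disjoint_left.mp hdo h hx.1, hx.2⟩) (by omega)
          rw [Finset.mem_union, not_or] at h1
          rw [Finset.mem_sdiff] at h2 h3
          exact ⟨v, h1.1, fun h => h2 ⟨h, h1.2⟩, h1.2, Or.inr h3.1⟩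
      have hvf1 : v ∉ X ∪ Yo := by rw [Finset.mem_union, not_or]; exact ⟨hvX, hvo⟩
      have hvf2 : v ∉ X ∪ Yr := by rw [Finset.mem_union, not_or]; exact ⟨hvX, hvr⟩
      obtain ⟨y, hy, hP⟩ := free_reply Po X Yo hdo (by rw [hc]; exact hpar) ho v hvf1
      obtain ⟨hu, hF⟩ := hf v hvf2
      have hy' := hy
      rw [Finset.mem_union, not_or] at hy'
      have hu' := hu
      rw [Finset.mem_union, not_or] at hu'
      obtain ⟨Sr, So, h1, h2, h3, h4, h5⟩ := ih (insert v X) (insert (f v) Yr) (insert y Yo)
        (disjoint_step X Yr hdr v (f v) hvf2 hu) (disjoint_step X Yo hdo v y hvf1 hy)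
        (by rw [Finset.card_insert_of_notMem hy'.2, Finset.card_insert_of_notMem hu'.2, hc])
        (by rw [Finset.card_insert_of_notMem hu'.2, Finset.card_insert_of_notMem hvX]; omega)
        (by
          rcases hgood with hg | hg
          · have := card_sdiff_insert Yr Yo (f v) y
            omega
          · have := card_sdiff_insert_right Yr Yo (f v) y hg hu'.2
            omega) hF hP
      rw [Finset.card_insert_of_notMem hu'.2, Finset.card_insert_of_notMem hvX] at h3
      rw [Finset.card_insert_of_notMem hy'.2, Finset.card_insert_of_notMem hvX] at h4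
      exact ⟨Sr, So, h1, h2, by omega, by omega, h5⟩
    · push Not at hW
      obtain ⟨So, h3, h4, h5, -⟩ := finish Po true X Yo ho hdo
      have h6 := h5 rfl
      rw [hc, hpar, add_zero] at h6
      obtain ⟨Sr, h7, h8, h9⟩ := finishO Pr q (k + 1) X Yr hdr hr
      refine ⟨Sr, So, h8, h4, h9, by omega, ?_⟩
      have h10 := few_white So Sr X Yo Yr ∅ (by
        intro v
        by_cases hv1 : v ∈ X
        · tauto
        by_cases hv2 : v ∈ Yo
        · tauto
        exact Or.inr (Or.inr (Or.inl (hW v hv1 hv2)))) h3 h7 (by omega)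
      rw [Finset.card_empty, sdiff_comm_card Yr Yo hc.symm] at h10
      omega

omit [Fintype V] in
/-- For `q = 1` the condition says that different moves get different replies: a reply function on
the set `A` of unclaimed elements is injective if and only if every one-element subset of `A`
contains the reply to a move outside it (not used below). -/
lemma open_one_iff (A : Finset V) (f : V → V) (hf : ∀ v ∈ A, f v ∈ A ∧ f v ≠ v) :
    (∀ v ∈ A, ∀ w ∈ A, f v = f w → v = w) ↔
      ∀ Q : Finset V, (∀ x ∈ Q, x ∈ A) → Q.card = 1 → ∃ v ∈ A, v ∉ Q ∧ f v ∈ Q := by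
  have hsub : A.image f ⊆ A := by
    intro x hx
    obtain ⟨w, hw, rfl⟩ := Finset.mem_image.mp hx
    exact (hf w hw).1
  constructor
  · intro h Q hQ hQ1
    obtain ⟨x, rfl⟩ := Finset.card_eq_one.mp hQ1
    have himg : A.image f = A := by
      apply Finset.eq_of_subset_of_card_le hsub
      rw [Finset.card_image_of_injOn]
      intro v hv w hw hvw
      exact h v hv w hw hvw
    have hx : x ∈ A.image f := by
      rw [himg]
      exact hQ x (Finset.mem_singleton_self x)
    obtain ⟨v, hv, hvx⟩ := Finset.mem_image.mp hx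
    refine ⟨v, hv, ?_, by rw [hvx]; exact Finset.mem_singleton_self x⟩
    rw [Finset.mem_singleton]
    intro e
    exact (hf v hv).2 (by rw [hvx, e])
  · intro h
    have himg : A.image f = A := by
      apply Finset.Subset.antisymm hsub
      intro x hx
      obtain ⟨v, hv, -, hvx⟩ := h {x} (by
        intro y hy
        rw [Finset.mem_singleton] at hy
        rw [hy]
        exact hx) (Finset.card_singleton x)
      rw [Finset.mem_singleton] at hvx
      exact Finset.mem_image.mpr ⟨v, hv, hvx⟩
    have hinj : Set.InjOn f A := Finset.card_image_iff.mp (by rw [himg])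
    intro v hv w hw hvw
    exact hinj hv hw hvw

end

/-- The theorem, for any `q ≥ 1`. -/
lemma main : ∀ (V : Type) [Fintype V] [DecidableEq V] (F : Finset (Finset V)) (c : ℝ) (q : ℕ),
    1 ≤ q → GapFactorAtLeast F c →
    (StartOpen (fun M => ∀ A ∈ F, ((M ∩ A).card : ℝ) ≤ (A.card : ℝ) / c) q ∨
      StartOpen (fun S => ∃ A ∈ F, A ⊆ S) q) →
    ∃ A ∈ F, c * ((A.card : ℝ) - ((q / 2 : ℕ) : ℝ)) ≤ (A.card : ℝ) := by
  intro V _ _ F c q hq hgap hstart
  obtain ⟨hc1, hgap⟩ := hgap
  obtain ⟨S, M, ⟨A, hA, hAS⟩, hM, hcard⟩ : ∃ S M : Finset V, (∃ A ∈ F, A ⊆ S) ∧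
      (∀ A ∈ F, ((M ∩ A).card : ℝ) ≤ (A.card : ℝ) / c) ∧ (S \ M).card ≤ q / 2 := by
    have hodd : Fintype.card V % 2 = 1 → Nonempty V := by
      intro h
      rw [← Fintype.card_pos_iff]
      omega
    have hone : ∀ y u : V, (({y} : Finset V) \ {u}).card ≤ q := by
      intro y u
      calc (({y} : Finset V) \ {u}).card ≤ ({y} : Finset V).card :=
            Finset.card_le_card Finset.sdiff_subset
        _ = 1 := Finset.card_singleton y
        _ ≤ q := hq
    rcases hstart with (⟨hn, k, h1⟩ | ⟨hn, u, k, h1⟩) | (⟨hn, k, h1⟩ | ⟨hn, u, k, h1⟩)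
    · obtain ⟨Sr, So, h3, h4, h5, h6, h7⟩ := open1 _ _ q k ∅ ∅ ∅ (by simp) (by simp) rfl
        (by simpa using hn) (by simp) h1 (hgap true).1
      exact ⟨So, Sr, h4, h3, h7⟩
    · obtain ⟨v⟩ := hodd hn
      obtain ⟨y, hy, hy2⟩ := ystep _ _ _ (hgap false).1 v (by simp)
      obtain ⟨Sr, So, h3, h4, h5, h6, h7⟩ := open1 _ _ q k ∅ {u} (insert y ∅) (by simp)
        (by simp) (by simp) (by rw [Finset.card_singleton, Finset.card_empty]; omega)
        (by rw [insert_empty_eq]; exact hone y u) h1 hy2
      exact ⟨So, Sr, h4, h3, h7⟩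
    · obtain ⟨Sr, So, h3, h4, h5, h6, h7⟩ := open1 _ _ q k ∅ ∅ ∅ (by simp) (by simp) rfl
        (by simpa using hn) (by simp) h1 (hgap true).2
      exact ⟨Sr, So, h3, h4, by rw [sdiff_comm_card Sr So (by omega)]; exact h7⟩
    · obtain ⟨v⟩ := hodd hn
      obtain ⟨y, hy, hy2⟩ := ystep _ _ _ (hgap false).2 v (by simp)
      obtain ⟨Sr, So, h3, h4, h5, h6, h7⟩ := open1 _ _ q k ∅ {u} (insert y ∅) (by simp)
        (by simp) (by simp) (by rw [Finset.card_singleton, Finset.card_empty]; omega)
        (by rw [insert_empty_eq]; exact hone y u) h1 hy2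
      refine ⟨Sr, So, h3, h4, ?_⟩
      rw [insert_empty_eq, Finset.card_singleton] at h6
      rw [Finset.card_singleton] at h5
      rw [sdiff_comm_card Sr So (by omega)]
      exact h7
  refine ⟨A, hA, ?_⟩
  have hMA := hM A hA
  have hcpos : (0 : ℝ) < c := by linarith
  rw [le_div_iff₀ hcpos] at hMA
  have h1 : A.card ≤ (M ∩ A).card + q / 2 := by
    have h2 : A \ M ⊆ S \ M := Finset.sdiff_subset_sdiff hAS subset_rfl
    have h3 := Finset.card_le_card h2
    have h4 := Finset.card_sdiff_add_card_inter A M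
    rw [Finset.inter_comm M A]
    omega
  have h2 : (A.card : ℝ) - ((q / 2 : ℕ) : ℝ) ≤ ((M ∩ A).card : ℝ) := by
    have : (A.card : ℝ) ≤ ((M ∩ A).card : ℝ) + ((q / 2 : ℕ) : ℝ) := by
      exact_mod_cast h1
    linarith
  calc c * ((A.card : ℝ) - ((q / 2 : ℕ) : ℝ))
        ≤ c * ((M ∩ A).card : ℝ) := mul_le_mul_of_nonneg_left h2 hcpos.le
    _ ≤ (A.card : ℝ) := by rw [mul_comm]; exact hMA

/-- **Theorem.** Let `F` be a hypergraph with gap factor at least `c`.  If Breaker or Forcer has a
strategy for it with `(2s+1)`-open replies, then some `A ∈ F` satisfies `c * (|A| - s) ≤ |A|`.  For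
`s = 0` the condition is that different moves always get different replies (`open_one_iff`). -/
theorem result : ∀ (V : Type) [Fintype V] [DecidableEq V] (F : Finset (Finset V)) (c : ℝ) (s : ℕ),
    GapFactorAtLeast F c →
    (StartOpen (fun M => ∀ A ∈ F, ((M ∩ A).card : ℝ) ≤ (A.card : ℝ) / c) (2 * s + 1) ∨
      StartOpen (fun S => ∃ A ∈ F, A ⊆ S) (2 * s + 1)) →
    ∃ A ∈ F, c * ((A.card : ℝ) - (s : ℝ)) ≤ (A.card : ℝ) := by
  intro V _ _ F c s hgap hstart
  have h := main V F c (2 * s + 1) (by omega) hgap hstart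
  rwa [show (2 * s + 1) / 2 = s by omega] at h

end Pool.Agent.Results.MP_c0ff68_co.OpenReplies
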